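import Pool.Agent.H57.LS.Bls
import Pool.Agent.H57.LOW.Log

/-!
# [H57 LS MLW] families without large primes in some class, 60-100 lines. File Pool/Agent/H57/LS/Mlw.lean

`MLow D c T` for `T Y = exp ((log (log Y))^c0)`. A family in `Fam0` which is not `Big (T Y)` has a class `j` with `Smo (T Y) (f j)`; the weights are nonnegative (`lb_wt_nonneg`), so the sum is at most the sum over `j` of the sums in `bls`
(`Fam0` is contained in the families with `Dj`, `∏ nr ≤ Y`). For `Y` large: `3 ≤ T Y`, `(log T Y)^2 = (loglog Y)^(2 c0) ≤ log Y`, and `N * C * (log Y)^(-1/2) * (loglog Y)^(c0 A) ≤ ε` (`(log x)^k = o(x^(1/2))`, `x = log Y`).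
-/

set_option autoImplicit false

open scoped NumberField
open IsDedekindDomain
open scoped Classical

noncomputable section

namespace H57.LS

open H63.MA H38.BB H57.LOW H57.PC

theorem mlw_ev (c₀ k : ℕ) {δ : ℝ} (hδ : 0 < δ) : ∀ᶠ Y in Filter.atTop,
    2 ≤ Real.log (Real.log Y) ∧ (Real.log (Real.log Y) ^ c₀) ^ 2 ≤ Real.log Y ∧
      (Real.log (Real.log Y) ^ c₀) ^ k ≤ δ * Real.log Y ^ (1 / 2 : ℝ) := by
  have e0 : ∀ᶠ x : ℝ in Filter.atTop, 2 ≤ Real.log x :=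
    Real.tendsto_log_atTop.eventually (Filter.eventually_ge_atTop 2)
  have e1 : ∀ᶠ x : ℝ in Filter.atTop, (Real.log x ^ c₀) ^ 2 ≤ x := by
    have h := (isLittleO_log_rpow_rpow_atTop (((c₀ * 2 : ℕ) : ℝ)) (s := 1)
      (by norm_num)).bound (by norm_num : (0 : ℝ) < 1)
    filter_upwards [h, Filter.eventually_ge_atTop (1 : ℝ)] with x hx hx1
    rw [one_mul, Real.rpow_natCast, Real.rpow_one, Real.norm_eq_abs, Real.norm_eq_abs,
      abs_of_nonneg (by linarith : (0 : ℝ) ≤ x)] at hx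
    rw [← pow_mul]
    exact (le_abs_self _).trans hx
  have e2 : ∀ᶠ x : ℝ in Filter.atTop, (Real.log x ^ c₀) ^ k ≤ δ * x ^ (1 / 2 : ℝ) := by
    have h := (isLittleO_log_rpow_rpow_atTop (((c₀ * k : ℕ) : ℝ)) (s := 1 / 2)
      (by norm_num)).bound hδ
    filter_upwards [h, Filter.eventually_ge_atTop (1 : ℝ)] with x hx hx1
    rw [Real.rpow_natCast, Real.norm_eq_abs, Real.norm_eq_abs,
      abs_of_nonneg (Real.rpow_nonneg (by linarith : (0 : ℝ) ≤ x) _)] at hx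
    rw [← pow_mul]
    exact (le_abs_self _).trans hx
  filter_upwards [Real.tendsto_log_atTop.eventually e0, Real.tendsto_log_atTop.eventually e1,
    Real.tendsto_log_atTop.eventually e2] with Y h0 h1 h2
  exact ⟨h0, h1, h2⟩

theorem mlow {K : Type} [Field K] [NumberField K] {p : ℕ} {ζ : K} {m N : ℕ} [NeZero p]
    (hp : p.Prime) (hp2 : MOne p K) (hζ : IsPrimitiveRoot ζ p) (D : RD K p ζ) (c : CR p m N)
    (hN : 1 ≤ N) (c₀ : ℕ) (hc : 1 ≤ c₀) :
    MLow D.toRD0 c (fun Y => Real.exp (Real.log (Real.log Y) ^ c₀)) := by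
  intro ε hε
  obtain ⟨C, X₁, A, hC, hX₁, hbls⟩ := bls hp hp2 hζ D c hN
  have hN0 : (0 : ℝ) < N := by exact_mod_cast hN
  have hδ : 0 < ε / (N * C) := by positivity
  obtain ⟨X₂, hX₂⟩ := Filter.eventually_atTop.1 (mlw_ev c₀ A hδ)
  refine ⟨max X₁ X₂, hX₁.trans (le_max_left _ _), fun Y hY => ?_⟩
  obtain ⟨h2, hT2, hTA⟩ := hX₂ Y ((le_max_right _ _).trans hY)
  have hYX : X₁ ≤ Y := (le_max_left _ _).trans hY
  have hY0 : (0 : ℝ) < Y := by linarith
  set ll : ℝ := Real.log (Real.log Y) with hll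
  have hL : 0 < Real.log Y := Real.log_pos (by linarith)
  set T : ℝ := Real.exp (ll ^ c₀) with hT
  have hlogT : Real.log T = ll ^ c₀ := Real.log_exp _
  have hll2 : 2 ≤ ll ^ c₀ := by
    calc (2 : ℝ) ≤ ll := h2
      _ ≤ ll ^ c₀ := le_self_pow₀ (by linarith) (by omega)
  have hT3 : 3 ≤ T := by
    have h3 := Real.add_one_le_exp (ll ^ c₀)
    linarith
  have hb : ∀ j : Fin N, _ := fun j => hbls Y hYX T hT3 (by rw [hlogT]; exact hT2) j
  have hmain : ∑ f ∈ (Fam0 D.toRD0 N Y).filter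
      (fun f => SpR c (fun _ => (1 : Kˣ)) f ∧ ¬ Big T f),
      wtR c f (fun v k => D.LL v (akR D.toRD0 c (fun _ => 1) f k)) ≤
      ∑ j : Fin N, ∑ f ∈ Fintype.piFinset (fun _ : Fin N => GF D.toRD0 Y),
        if Dj f ∧ ∏ i, nr (f i) ≤ Y ∧ SpR c (fun _ => (1 : Kˣ)) f ∧ Smo T (f j) then
          wtR c f (fun v k => D.LL v (akR D.toRD0 c (fun _ => 1) f k)) else 0 := by
    rw [Finset.sum_comm]
    have hsub : (Fam0 D.toRD0 N Y).filter
        (fun f => SpR c (fun _ => (1 : Kˣ)) f ∧ ¬ Big T f) ⊆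
        Fintype.piFinset (fun _ : Fin N => GF D.toRD0 Y) := by
      intro f hf
      have h1 := (Finset.mem_filter.1 hf).1
      unfold Fam0 at h1
      exact (Finset.mem_filter.1 h1).1
    have hnn : ∀ f : Fin N → Finset (Pl K), ∀ j : Fin N,
        0 ≤ (if Dj f ∧ ∏ i, nr (f i) ≤ Y ∧ SpR c (fun _ => (1 : Kˣ)) f ∧ Smo T (f j) then
          wtR c f (fun v k => D.LL v (akR D.toRD0 c (fun _ => 1) f k)) else 0) := by
      intro f j
      split_ifs
      · exact lb_wt_nonneg _ _ _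
      · exact le_rfl
    refine (Finset.sum_le_sum ?_).trans (Finset.sum_le_sum_of_subset_of_nonneg hsub
      fun f _ _ => Finset.sum_nonneg fun j _ => hnn f j)
    intro f hf
    obtain ⟨h1, h3, h4⟩ := Finset.mem_filter.1 hf
    unfold Fam0 at h1
    obtain ⟨-, h5, h6, -⟩ := Finset.mem_filter.1 h1
    unfold Big at h4
    push Not at h4
    obtain ⟨j, hj⟩ := h4
    have h7 : Dj f ∧ ∏ i, nr (f i) ≤ Y ∧ SpR c (fun _ => (1 : Kˣ)) f ∧ Smo T (f j) :=
      ⟨h5, h6, h3, hj⟩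
    calc wtR c f (fun v k => D.LL v (akR D.toRD0 c (fun _ => 1) f k)) =
        (if Dj f ∧ ∏ i, nr (f i) ≤ Y ∧ SpR c (fun _ => (1 : Kˣ)) f ∧ Smo T (f j) then
          wtR c f (fun v k => D.LL v (akR D.toRD0 c (fun _ => 1) f k)) else 0) := by
          rw [if_pos h7]
      _ ≤ _ := Finset.single_le_sum (f := fun j : Fin N =>
        if Dj f ∧ ∏ i, nr (f i) ≤ Y ∧ SpR c (fun _ => (1 : Kˣ)) f ∧ Smo T (f j) then
          wtR c f (fun v k => D.LL v (akR D.toRD0 c (fun _ => 1) f k)) else 0)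
        (fun j _ => hnn f j) (Finset.mem_univ j)
  refine hmain.trans ((Finset.sum_le_sum fun j _ => hb j).trans ?_)
  rw [Finset.sum_const, Finset.card_univ, Fintype.card_fin, nsmul_eq_mul, hlogT]
  have hrp : Real.log Y ^ (-(1 / 2) : ℝ) * Real.log Y ^ (1 / 2 : ℝ) = 1 := by
    rw [← Real.rpow_add hL]
    norm_num
  have hrp0 : 0 < Real.log Y ^ (-(1 / 2) : ℝ) := Real.rpow_pos_of_pos hL _
  have h8 : (N : ℝ) * C * (Real.log Y ^ (-(1 / 2) : ℝ) * (ll ^ c₀) ^ A) ≤ ε := by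
    calc (N : ℝ) * C * (Real.log Y ^ (-(1 / 2) : ℝ) * (ll ^ c₀) ^ A) ≤
        (N : ℝ) * C * (Real.log Y ^ (-(1 / 2) : ℝ) *
          (ε / (N * C) * Real.log Y ^ (1 / 2 : ℝ))) := by
          refine mul_le_mul_of_nonneg_left ?_ (by positivity)
          exact mul_le_mul_of_nonneg_left hTA hrp0.le
      _ = (N : ℝ) * C * (ε / (N * C)) *
          (Real.log Y ^ (-(1 / 2) : ℝ) * Real.log Y ^ (1 / 2 : ℝ)) := by ring
      _ = ε := by
        rw [hrp, mul_one]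
        field_simp
  have h9 : 0 ≤ Y * Real.log Y ^ (N - 1) := by positivity
  calc (N : ℝ) * (C * Y * Real.log Y ^ (N - 1) * Real.log Y ^ (-(1 / 2) : ℝ) *
        (ll ^ c₀) ^ A) =
      ((N : ℝ) * C * (Real.log Y ^ (-(1 / 2) : ℝ) * (ll ^ c₀) ^ A)) *
        (Y * Real.log Y ^ (N - 1)) := by ring
    _ ≤ ε * (Y * Real.log Y ^ (N - 1)) := mul_le_mul_of_nonneg_right h8 h9
    _ = ε * Y * Real.log Y ^ (N - 1) := by ring

end H57.LS
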