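import Pool.Agent.H57.LS.Def
import Pool.Agent.H63.MB.BPhA
import Pool.Agent.H63.MA.AKA
import Pool.Agent.H63.MA.AKSum
import Pool.Agent.H63.MA.AKB

/-!
# [H57 LS KPA] a linked pair of large variables, with weights, 350-400 lines (copy). File Pool/Agent/H57/LS/Kpa.lean

`kpa3` is `H63.MA.kpa2` (Pool/Agent/H63/MB/BKA.lean) with weights `κ a (g a)`, `|κ| ≤ 1`. COPY the file BKA.lean (`bka_core` and `kpa2`) and insert the weights: for the fixed variables `l ≠ a, a'` the factor
`∏ l ≠ a, a', κ l (g l)` is a constant of absolute value at most `1`, and `κ a n`, `κ a' n'` go into the coefficients `α n`, `β n'` of the bilinear form (`hbil` is for arbitrary coefficients of absolute value at most `1`).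
Easiest: in `bka_core` the coefficients `α`, `β` are defined from the outer function and one-variable phases; multiply them by `κ a n` and `κ a' n'`.
Alternatively: prove first the version of `bka_core` with weights and repeat the (short) proof of `kpa2`.
-/

set_option autoImplicit false

open scoped NumberField
open IsDedekindDomain
open scoped Classical

noncomputable section

namespace H57.LS

open H63.MA H38.BB

theorem kpa_core {K : Type} [Field K] [NumberField K] {p : ℕ} {ζ : K} {m t : ℕ} {J : Type}
    [Fintype J] (hp : p.Prime) (hζ : IsPrimitiveRoot ζ p) (D : RD K p ζ) (P : PD p m J)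
    (blk : J → Fin t) (X z₂ : ℝ) (Y : Fin t → ℝ) (b : Fin m → Kˣ) (E : Finset (Pl K))
    (η : Pl K → Fin m → ZMod p)
    (Lg : Finset J) (s : J → Finset (Pl K)) (hs : ∀ l, l ∉ Lg → ∀ v ∈ s l, D.Gd v)
    (κ : J → Finset (Pl K) → ℂ) (hκ : ∀ a n, ‖κ a n‖ ≤ 1)
    (h : (J → Fin D.r → ZMod p) → ℂ) (hh : ∀ q, ‖h q‖ ≤ 1) (a a' : J) (haa : a ≠ a')
    (ha : a ∈ Lg) (ha' : a' ∈ Lg) (g : J → Finset (Pl K)) (hga : g a = ∅) (hga' : g a' = ∅)
    (hgs : ∀ l, l ∉ Lg → g l = s l) (hgL : ∀ l ∈ Lg, l ≠ a → l ≠ a' → g l ∈ GF D.toRD0 X)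
    (sz : Finset (Pl K) → Finset (Pl K) → Prop)
    (hsz : ∀ n n', (∀ i, bn blk i (Function.update (Function.update g a n) a' n') ≤ Y i) ↔
      sz n n') (Bd : ℝ) (hBd : 0 ≤ Bd)
    (hbil : ∀ α β : Finset (Pl K) → ℂ, (∀ n, ‖α n‖ ≤ 1) → (∀ n, ‖β n‖ ≤ 1) →
      ‖∑ n ∈ GF D.toRD0 X, ∑ n' ∈ GF D.toRD0 X,
        if z₂ < nr n ∧ z₂ < nr n' ∧ sz n n' ∧ Disjoint n n' then
          α n * β n' * ep p (P.lk a a' * Lf D.toRD0 n (pf D.toRD0 n')) else 0‖ ≤ Bd) :
    ‖∑ n ∈ GF D.toRD0 X, ∑ n' ∈ GF D.toRD0 X,
      if Cond2 E blk Y Lg z₂ (Function.update (Function.update g a n) a' n') then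
        (∏ l, κ l (Function.update (Function.update g a n) a' n' l)) *
          (h (fun l => qf D.toRD0 (Function.update (Function.update g a n) a' n' l)) *
          ep p (ph2 D.toRD0 P b E η (Function.update (Function.update g a n) a' n'))) else 0‖ ≤
      (p : ℝ) ^ (2 * D.r) * Bd := by
  have hNZ : NeZero p := ⟨hp.ne_zero⟩
  have hp0 : (0 : ℝ) ≤ p := Nat.cast_nonneg p
  by_cases hex : ∃ n₀ ∈ GF D.toRD0 X, ∃ n₀' ∈ GF D.toRD0 X,
    Cond2 E blk Y Lg z₂ (Function.update (Function.update g a n₀) a' n₀')
  swap
  · have h0 : ∑ n ∈ GF D.toRD0 X, ∑ n' ∈ GF D.toRD0 X,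
      (if Cond2 E blk Y Lg z₂ (Function.update (Function.update g a n) a' n') then
        (∏ l, κ l (Function.update (Function.update g a n) a' n' l)) *
          (h (fun l => qf D.toRD0 (Function.update (Function.update g a n) a' n' l)) *
          ep p (ph2 D.toRD0 P b E η (Function.update (Function.update g a n) a' n'))) else 0) = 0 := by
      apply Finset.sum_eq_zero
      intro n hn
      apply Finset.sum_eq_zero
      intro n' hn'
      rw [if_neg]
      intro hc
      exact hex ⟨n, hn, n', hn', hc⟩
    rw [h0, norm_zero]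
    positivity
  obtain ⟨n₀, hn₀, n₀', hn₀', ⟨c1, c2, c3⟩, c4⟩ := hex
  have u1 : ∀ n n' : Finset (Pl K), Function.update (Function.update g a n) a' n' a = n := by
    intro n n'
    rw [Function.update_of_ne haa, Function.update_self]
  have u2 : ∀ n n' : Finset (Pl K), Function.update (Function.update g a n) a' n' a' = n' := by
    intro n n'
    rw [Function.update_self]
  have u3 : ∀ l, l ≠ a → l ≠ a' → ∀ n n' : Finset (Pl K),
      Function.update (Function.update g a n) a' n' l = g l := by
    intro l h1 h2 n n'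
    rw [Function.update_of_ne h2, Function.update_of_ne h1]
  have hdis : ∀ l l', l ≠ l' → Disjoint (g l) (g l') := by
    intro l l' hll
    by_cases hl : l = a
    · rw [hl, hga]
      exact Finset.disjoint_empty_left _
    · by_cases hl2 : l = a'
      · rw [hl2, hga']
        exact Finset.disjoint_empty_left _
      · by_cases hl' : l' = a
        · rw [hl', hga]
          exact Finset.disjoint_empty_right _
        · by_cases hl2' : l' = a'
          · rw [hl2', hga']
            exact Finset.disjoint_empty_right _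
          · have := c1 l l' hll
            rwa [u3 l hl hl2, u3 l' hl' hl2'] at this
  have hGd : ∀ l, ∀ v ∈ g l, D.Gd v := by
    intro l v hv
    by_cases hl : l ∈ Lg
    · by_cases hla : l = a
      · rw [hla, hga] at hv
        exact absurd hv (Finset.notMem_empty v)
      · by_cases hla' : l = a'
        · rw [hla', hga'] at hv
          exact absurd hv (Finset.notMem_empty v)
        · exact ((akb_mem_GF D.toRD0).1 (hgL l hl hla hla')).2 v hv
    · rw [hgs l hl] at hv
      exact hs l hl v hv
  obtain ⟨c₁, c₂, hph⟩ := ph_two2 hp hζ D P b E η g a a' haa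
  have hgE : ∀ l, l ≠ a → l ≠ a' → Disjoint (g l) E := by
    intro l h1 h2
    have := c4 l
    rwa [u3 l h1 h2] at this
  obtain ⟨F, hF⟩ : ∃ F : Finset (Pl K), F = E ∪ ((Finset.univ.erase a).erase a').biUnion g :=
    ⟨_, rfl⟩
  have hdF : ∀ n : Finset (Pl K), Disjoint n F ↔
      Disjoint n E ∧ ∀ l, l ≠ a → l ≠ a' → Disjoint n (g l) := by
    intro n
    rw [hF, Finset.disjoint_union_right, Finset.disjoint_biUnion_right]
    constructor
    · rintro ⟨h0, h1⟩
      refine ⟨h0, fun l hl hl' => ?_⟩
      exact h1 l (Finset.mem_erase.2 ⟨hl', Finset.mem_erase.2 ⟨hl, Finset.mem_univ l⟩⟩)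
    · rintro ⟨h0, h1⟩
      refine ⟨h0, fun l hl => ?_⟩
      rw [Finset.mem_erase, Finset.mem_erase] at hl
      exact h1 l hl.2.1 hl.1
  have hcond : ∀ n n' : Finset (Pl K),
      Cond2 E blk Y Lg z₂ (Function.update (Function.update g a n) a' n') ↔
      ((Disjoint n F ∧ Disjoint n' F) ∧
        (z₂ < nr n ∧ z₂ < nr n' ∧ sz n n' ∧ Disjoint n n')) := by
    intro n n'
    constructor
    · rintro ⟨⟨d1, d2, d3⟩, d4⟩
      refine ⟨⟨?_, ?_⟩, ?_, ?_, (hsz n n').1 d3, ?_⟩
      · rw [hdF]
        refine ⟨?_, fun l hl hl' => ?_⟩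
        · have := d4 a
          rwa [u1] at this
        · have := d1 a l hl.symm
          rwa [u1, u3 l hl hl'] at this
      · rw [hdF]
        refine ⟨?_, fun l hl hl' => ?_⟩
        · have := d4 a'
          rwa [u2] at this
        · have := d1 a' l hl'.symm
          rwa [u2, u3 l hl hl'] at this
      · have := d2 a ha
        rwa [u1] at this
      · have := d2 a' ha'
        rwa [u2] at this
      · have := d1 a a' haa
        rwa [u1, u2] at this
    · rintro ⟨⟨d1, d2⟩, d3, d4, d5, d6⟩
      rw [hdF] at d1 d2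
      obtain ⟨e1, d1⟩ := d1
      obtain ⟨e2, d2⟩ := d2
      refine ⟨⟨?_, ?_, (hsz n n').2 d5⟩, ?_⟩
      rotate_left 2
      · intro l
        by_cases hl : l = a
        · rw [hl, u1]
          exact e1
        · by_cases hl2 : l = a'
          · rw [hl2, u2]
            exact e2
          · rw [u3 l hl hl2]
            exact hgE l hl hl2
      · intro l l' hll
        by_cases hl : l = a
        · by_cases hl2' : l' = a'
          · rw [hl, hl2', u1, u2]
            exact d6
          · have hl' : l' ≠ a := by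
              rintro rfl
              exact hll hl
            rw [hl, u1, u3 l' hl' hl2']
            exact d1 l' hl' hl2'
        · by_cases hl2 : l = a'
          · by_cases hl' : l' = a
            · rw [hl2, hl', u1, u2]
              exact d6.symm
            · have hl2' : l' ≠ a' := by
                rintro rfl
                exact hll hl2
              rw [hl2, u2, u3 l' hl' hl2']
              exact d2 l' hl' hl2'
          · by_cases hl' : l' = a
            · rw [hl', u1, u3 l hl hl2]
              exact (d1 l hl hl2).symm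
            · by_cases hl2' : l' = a'
              · rw [hl2', u2, u3 l hl hl2]
                exact (d2 l hl hl2).symm
              · rw [u3 l hl hl2, u3 l' hl' hl2']
                exact hdis l l' hll
      · intro l hl
        by_cases hla : l = a
        · rw [hla, u1]
          exact d3
        · by_cases hla' : l = a'
          · rw [hla', u2]
            exact d4
          · have := c2 l hl
            rwa [u3 l hla hla'] at this ⊢
  obtain ⟨W, hW⟩ : ∃ W : ℂ, W = ∏ l ∈ (Finset.univ.erase a).erase a', κ l (g l) := ⟨_, rfl⟩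
  have hW1 : ‖W‖ ≤ 1 := by
    rw [hW, norm_prod]
    exact Finset.prod_le_one (fun l _ => norm_nonneg _) fun l _ => hκ _ _
  have hprod : ∀ n n' : Finset (Pl K),
      ∏ l, κ l (Function.update (Function.update g a n) a' n' l) = κ a n * (κ a' n' * W) := by
    intro n n'
    have ha'm : a' ∈ (Finset.univ : Finset J).erase a :=
      Finset.mem_erase.2 ⟨haa.symm, Finset.mem_univ _⟩
    rw [← Finset.mul_prod_erase Finset.univ _ (Finset.mem_univ a),
      ← Finset.mul_prod_erase _ _ ha'm, u1, u2, hW]
    congr 2
    apply Finset.prod_congr rfl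
    intro l hl
    rw [Finset.mem_erase, Finset.mem_erase] at hl
    rw [u3 l hl.2.1 hl.1]
  obtain ⟨coef, hcoef⟩ : ∃ coef : (Fin D.r → ZMod p) × (Fin D.r → ZMod p) → ℂ, ∀ x, coef x =
      W * (h (Function.update (Function.update (fun l => qf D.toRD0 (g l)) a x.1) a' x.2) *
        ep p (-(dt (P.θ a') (P.x a) * ∑ i, ∑ j, D.eta i j * x.2 i * x.1 j))) := ⟨_, fun _ => rfl⟩
  have hcoef1 : ∀ x, ‖coef x‖ ≤ 1 := by
    intro x
    rw [hcoef, norm_mul, norm_mul, ep_norm, mul_one]
    exact mul_le_one₀ hW1 (norm_nonneg _) (hh _)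
  obtain ⟨α, hα⟩ : ∃ α : (Fin D.r → ZMod p) → Finset (Pl K) → ℂ, ∀ q n, α q n =
      if qf D.toRD0 n = q ∧ Disjoint n F then κ a n * ep p (c₁ n) else 0 := ⟨_, fun _ _ => rfl⟩
  obtain ⟨β, hβ⟩ : ∃ β : (Fin D.r → ZMod p) → Finset (Pl K) → ℂ, ∀ q n, β q n =
      if qf D.toRD0 n = q ∧ Disjoint n F then κ a' n * ep p (c₂ n) else 0 := ⟨_, fun _ _ => rfl⟩
  have hα1 : ∀ q n, ‖α q n‖ ≤ 1 := by
    intro q n
    rw [hα]
    split_ifs
    · rw [norm_mul, ep_norm, mul_one]
      exact hκ _ _
    · rw [norm_zero]
      exact zero_le_one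
  have hβ1 : ∀ q n, ‖β q n‖ ≤ 1 := by
    intro q n
    rw [hβ]
    split_ifs
    · rw [norm_mul, ep_norm, mul_one]
      exact hκ _ _
    · rw [norm_zero]
      exact zero_le_one
  obtain ⟨G, hG⟩ : ∃ G : (Fin D.r → ZMod p) × (Fin D.r → ZMod p) → Finset (Pl K) →
      Finset (Pl K) → ℂ, ∀ x n n', G x n n' =
      if z₂ < nr n ∧ z₂ < nr n' ∧ sz n n' ∧ Disjoint n n' then
        α x.1 n * β x.2 n' * ep p (P.lk a a' * Lf D.toRD0 n (pf D.toRD0 n')) else 0 :=
    ⟨_, fun _ _ _ => rfl⟩
  have hterm : ∀ n ∈ GF D.toRD0 X, ∀ n' ∈ GF D.toRD0 X,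
      (if Cond2 E blk Y Lg z₂ (Function.update (Function.update g a n) a' n') then
        (∏ l, κ l (Function.update (Function.update g a n) a' n' l)) *
          (h (fun l => qf D.toRD0 (Function.update (Function.update g a n) a' n' l)) *
          ep p (ph2 D.toRD0 P b E η (Function.update (Function.update g a n) a' n'))) else 0) =
      ∑ x, coef x * G x n n' := by
    intro n hn n' hn'
    have hnn := (akb_mem_GF D.toRD0).1 hn
    have hnn' := (akb_mem_GF D.toRD0).1 hn'
    by_cases hc : Cond2 E blk Y Lg z₂ (Function.update (Function.update g a n) a' n')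
    · rw [if_pos hc]
      obtain ⟨⟨d1, d2⟩, d3⟩ := (hcond n n').1 hc
      have hadm : Adm2 D.toRD0 E (Function.update (Function.update g a n) a' n') := by
        refine ⟨⟨?_, hc.1.1⟩, hc.2⟩
        intro l v hv
        by_cases hl : l = a
        · rw [hl, u1] at hv
          exact hnn.2 v hv
        · by_cases hl' : l = a'
          · rw [hl', u2] at hv
            exact hnn'.2 v hv
          · rw [u3 l hl hl'] at hv
            exact hGd l v hv
      rw [Finset.sum_eq_single (qf D.toRD0 n, qf D.toRD0 n')]
      · rw [hG, if_pos d3, hα, hβ, if_pos ⟨rfl, d1⟩, if_pos ⟨rfl, d2⟩, hcoef, hph n n' hadm]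
        have e1 : (fun l => qf D.toRD0 (Function.update (Function.update g a n) a' n' l)) =
            Function.update (Function.update (fun l => qf D.toRD0 (g l)) a (qf D.toRD0 n)) a'
              (qf D.toRD0 n') := by
          funext l
          by_cases hl' : l = a'
          · rw [hl', u2, Function.update_self]
          · by_cases hl : l = a
            · rw [hl, u1, Function.update_of_ne haa, Function.update_self]
            · rw [u3 l hl hl', Function.update_of_ne hl', Function.update_of_ne hl]
        rw [e1, hprod, sub_eq_add_neg, ep_add hp, ep_add hp, ep_add hp]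
        ring
      · intro x _ hx
        rw [hG, if_pos d3, hα, hβ]
        by_cases h1 : qf D.toRD0 n = x.1
        · by_cases h2 : qf D.toRD0 n' = x.2
          · exact absurd (Prod.ext h1.symm h2.symm) hx
          · rw [if_neg (show ¬ (qf D.toRD0 n' = x.2 ∧ Disjoint n' F) from fun h => h2 h.1)]
            ring
        · rw [if_neg (show ¬ (qf D.toRD0 n = x.1 ∧ Disjoint n F) from fun h => h1 h.1)]
          ring
      · intro hx
        exact absurd (Finset.mem_univ _) hx
    · rw [if_neg hc]
      symm
      apply Finset.sum_eq_zero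
      intro x _
      rw [hG]
      by_cases d3 : z₂ < nr n ∧ z₂ < nr n' ∧ sz n n' ∧ Disjoint n n'
      · rw [if_pos d3, hα, hβ]
        by_cases d1 : Disjoint n F
        · by_cases d2 : Disjoint n' F
          · exact absurd ((hcond n n').2 ⟨⟨d1, d2⟩, d3⟩) hc
          · rw [if_neg (show ¬ (qf D.toRD0 n' = x.2 ∧ Disjoint n' F) from fun h => d2 h.2)]
            ring
        · rw [if_neg (show ¬ (qf D.toRD0 n = x.1 ∧ Disjoint n F) from fun h => d1 h.2)]
          ring
      · rw [if_neg d3, mul_zero]
  have hsum : ∑ n ∈ GF D.toRD0 X, ∑ n' ∈ GF D.toRD0 X,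
      (if Cond2 E blk Y Lg z₂ (Function.update (Function.update g a n) a' n') then
        (∏ l, κ l (Function.update (Function.update g a n) a' n' l)) *
          (h (fun l => qf D.toRD0 (Function.update (Function.update g a n) a' n' l)) *
          ep p (ph2 D.toRD0 P b E η (Function.update (Function.update g a n) a' n'))) else 0) =
      ∑ x, coef x * ∑ n ∈ GF D.toRD0 X, ∑ n' ∈ GF D.toRD0 X, G x n n' := by
    have e1 : ∀ n ∈ GF D.toRD0 X, ∑ n' ∈ GF D.toRD0 X,
      (if Cond2 E blk Y Lg z₂ (Function.update (Function.update g a n) a' n') then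
        (∏ l, κ l (Function.update (Function.update g a n) a' n' l)) *
          (h (fun l => qf D.toRD0 (Function.update (Function.update g a n) a' n' l)) *
          ep p (ph2 D.toRD0 P b E η (Function.update (Function.update g a n) a' n'))) else 0) =
        ∑ x, coef x * ∑ n' ∈ GF D.toRD0 X, G x n n' := by
      intro n hn
      rw [Finset.sum_congr rfl (hterm n hn), Finset.sum_comm]
      apply Finset.sum_congr rfl
      intro x _
      rw [Finset.mul_sum]
    rw [Finset.sum_congr rfl e1, Finset.sum_comm]
    apply Finset.sum_congr rfl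
    intro x _
    rw [Finset.mul_sum]
  rw [hsum]
  have hone : ∀ x, ‖coef x * ∑ n ∈ GF D.toRD0 X, ∑ n' ∈ GF D.toRD0 X, G x n n'‖ ≤ Bd := by
    intro x
    have h1 := hbil (α x.1) (β x.2) (hα1 x.1) (hβ1 x.2)
    have h2 : ∑ n ∈ GF D.toRD0 X, ∑ n' ∈ GF D.toRD0 X, G x n n' =
        ∑ n ∈ GF D.toRD0 X, ∑ n' ∈ GF D.toRD0 X,
        if z₂ < nr n ∧ z₂ < nr n' ∧ sz n n' ∧ Disjoint n n' then
          α x.1 n * β x.2 n' * ep p (P.lk a a' * Lf D.toRD0 n (pf D.toRD0 n')) else 0 :=
      Finset.sum_congr rfl fun n _ => Finset.sum_congr rfl fun n' _ => hG x n n'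
    rw [← h2] at h1
    rw [norm_mul]
    calc ‖coef x‖ * _ ≤ 1 * Bd := mul_le_mul (hcoef1 x) h1 (norm_nonneg _) zero_le_one
      _ = Bd := one_mul _
  refine (norm_sum_le _ _).trans ((Finset.sum_le_sum fun x _ => hone x).trans (le_of_eq ?_))
  rw [Finset.sum_const, Finset.card_univ, Fintype.card_prod, Fintype.card_fun, ZMod.card,
    Fintype.card_fin, nsmul_eq_mul]
  push_cast
  ring

theorem kpa3 {K : Type} [Field K] [NumberField K] {p : ℕ} {ζ : K} {m t : ℕ} {J : Type}
    [Fintype J] (hp : p.Prime) (hζ : IsPrimitiveRoot ζ p) (D : RD K p ζ) (P : PD p m J)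
    (blk : J → Fin t) (A : ℝ) :
    ∃ (B₁ : ℕ) (X₀ : ℝ), 3 ≤ X₀ ∧ ∀ (X z₁ z₂ : ℝ), X₀ ≤ X → 1 ≤ z₁ → z₁ ^ B₁ ≤ z₂ →
      Real.log X ^ B₁ ≤ z₂ → ∀ (Y : Fin t → ℝ), (∀ i, 0 < Y i ∧ Y i ≤ X) →
      ∀ (b : Fin m → Kˣ) (E : Finset (Pl K)) (η : Pl K → Fin m → ZMod p),
      BS2 D.toRD0 b E → nr E ≤ z₁ → ∀ (Lg : Finset J) (s : J → Finset (Pl K)),
        (∀ l, l ∉ Lg → (∀ v ∈ s l, D.Gd v) ∧ nr (s l) ≤ z₁) →
      ∀ κ : J → Finset (Pl K) → ℂ, (∀ a n, ‖κ a n‖ ≤ 1) →
      ∀ h : (J → Fin D.r → ZMod p) → ℂ, (∀ q, ‖h q‖ ≤ 1) →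
        (∃ a ∈ Lg, ∃ a' ∈ Lg, P.lk a a' ≠ 0) →
        ‖TT3 D.toRD0 P b E η blk Y X Lg z₂ s κ h‖ ≤
          (∏ i, Y i) / sn Lg s * Real.log X ^ (-A) := by
  obtain ⟨CH, AH, δH, hCH, hAH, hδH, hδH1, hbH⟩ := bilH hp hζ D
  obtain ⟨CB, AB, δB, hCB, hAB, hδB, hδB1, hbB⟩ := bilB hp hζ D
  obtain ⟨C₂, A₂, hC₂, hA₂, hks⟩ := ks2_same K blk
  obtain ⟨C₃, A₃, hC₃, hA₃, hks3⟩ := ks2_diff K blk
  obtain ⟨N, hN⟩ : ∃ N : ℝ, N = (p : ℝ) ^ (2 * D.r) := ⟨_, rfl⟩
  have hp1 : (1 : ℝ) ≤ p := by exact_mod_cast hp.one_lt.le
  have hN1 : 1 ≤ N := by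
    rw [hN]
    exact one_le_pow₀ hp1
  obtain ⟨B, X₀, hX₀, hnum⟩ := akb_num (N * CH * C₂) 0 (AH + A₂) δH A (by positivity) le_rfl
    (by positivity) hδH
  obtain ⟨B', X₀', hX₀', hnum'⟩ := akb_num (N * (CB * 2 ^ AB) * C₃) 0 (AB + A₃) δB A
    (by positivity) le_rfl (by positivity) hδB
  refine ⟨max B B', max X₀ X₀', hX₀.trans (le_max_left _ _), ?_⟩
  intro X z₁ z₂ hX hz₁ hB1 hB2 Y hY b E η hb hE Lg s hs κ hκ h hh hex
  obtain ⟨a, ha, a', ha', hlk⟩ := hex
  have haa : a ≠ a' := by
    rintro rfl
    apply hlk
    unfold PD.lk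
    rw [P.self, add_zero]
  have hX3 : 3 ≤ X := hX₀.trans ((le_max_left _ _).trans hX)
  have hX1 : 1 ≤ X := by linarith
  have hlX : 1 ≤ Real.log X := by
    rw [Real.le_log_iff_exp_le (by linarith)]
    linarith [Real.exp_one_lt_d9]
  have hz₂ : 1 ≤ z₂ := (one_le_pow₀ hz₁).trans hB1
  have hsn : 0 < sn Lg s := by
    unfold sn
    exact Finset.prod_pos fun l _ => akb_nr_pos _
  have hPY : 0 < ∏ i, Y i := Finset.prod_pos fun i _ => (hY i).1
  have hq0 : 0 ≤ (∏ i, Y i) / sn Lg s := div_nonneg hPY.le hsn.le
  have n1 := hnum X z₁ z₂ ((le_max_left _ _).trans hX) hz₁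
    ((pow_le_pow_right₀ hz₁ (le_max_left B B')).trans hB1)
    ((pow_le_pow_right₀ hlX (le_max_left B B')).trans hB2)
  have n2 := hnum' X z₁ z₂ ((le_max_right _ _).trans hX) hz₁
    ((pow_le_pow_right₀ hz₁ (le_max_right B B')).trans hB1)
    ((pow_le_pow_right₀ hlX (le_max_right B B')).trans hB2)
  rw [Real.rpow_zero, mul_one] at n1 n2
  have hL0 : 0 < 1 + Real.log X := by linarith
  -- splitting
  obtain ⟨tt, htt⟩ : ∃ tt : J → Finset (Finset (Pl K)), tt = fun l =>
      if l ∈ Lg then GF D.toRD0 X else {s l} := ⟨_, rfl⟩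
  have htta : tt a = GF D.toRD0 X := by
    rw [htt]
    exact if_pos ha
  have htta' : tt a' = GF D.toRD0 X := by
    rw [htt]
    exact if_pos ha'
  obtain ⟨S, hS⟩ : ∃ S : (J → Finset (Pl K)) → ℂ, ∀ g, S g =
      ∑ n ∈ GF D.toRD0 X, ∑ n' ∈ GF D.toRD0 X,
      if Cond2 E blk Y Lg z₂ (Function.update (Function.update g a n) a' n') then
        (∏ l, κ l (Function.update (Function.update g a n) a' n' l)) *
          (h (fun l => qf D.toRD0 (Function.update (Function.update g a n) a' n' l)) *
          ep p (ph2 D.toRD0 P b E η (Function.update (Function.update g a n) a' n'))) else 0 :=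
    ⟨_, fun _ => rfl⟩
  have hTT : TT3 D.toRD0 P b E η blk Y X Lg z₂ s κ h =
      ∑ g ∈ Fintype.piFinset (Function.update (Function.update tt a' {∅}) a {∅}), S g := by
    have e1 := akb_split tt a' ∅ (fun g => if Cond2 E blk Y Lg z₂ g then
      (∏ l, κ l (g l)) * (h (fun l => qf D.toRD0 (g l)) * ep p (ph2 D.toRD0 P b E η g)) else 0)
    have e2 := akb_split (Function.update tt a' {∅}) a ∅ (fun g => ∑ n' ∈ tt a',
      if Cond2 E blk Y Lg z₂ (Function.update g a' n') then
      (∏ l, κ l (Function.update g a' n' l)) * (h (fun l => qf D.toRD0 (Function.update g a' n' l)) *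
        ep p (ph2 D.toRD0 P b E η (Function.update g a' n'))) else 0)
    rw [Function.update_of_ne haa, htta] at e2
    have e3 : TT3 D.toRD0 P b E η blk Y X Lg z₂ s κ h = ∑ g ∈ Fintype.piFinset tt,
        (if Cond2 E blk Y Lg z₂ g then
          (∏ l, κ l (g l)) * (h (fun l => qf D.toRD0 (g l)) * ep p (ph2 D.toRD0 P b E η g)) else 0) := by
      rw [htt]
      rfl
    rw [e3, e1, e2]
    apply Finset.sum_congr rfl
    intro g _
    rw [hS, htta']
  have hmem : ∀ g ∈ Fintype.piFinset (Function.update (Function.update tt a' {∅}) a {∅}),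
      g a = ∅ ∧ g a' = ∅ ∧ (∀ l, l ∉ Lg → g l = s l) ∧
      ∀ l ∈ Lg, l ≠ a → l ≠ a' → g l ∈ GF D.toRD0 X := by
    intro g hg
    rw [Fintype.mem_piFinset] at hg
    refine ⟨?_, ?_, ?_, ?_⟩
    · have := hg a
      rwa [Function.update_self, Finset.mem_singleton] at this
    · have := hg a'
      rwa [Function.update_of_ne haa.symm, Function.update_self, Finset.mem_singleton] at this
    · intro l hl
      have hla : l ≠ a := by
        rintro rfl
        exact hl ha
      have hla' : l ≠ a' := by
        rintro rfl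
        exact hl ha'
      have := hg l
      rw [Function.update_of_ne hla, Function.update_of_ne hla', htt] at this
      change g l ∈ (if l ∈ Lg then GF D.toRD0 X else {s l}) at this
      rwa [if_neg hl, Finset.mem_singleton] at this
    · intro l hl hla hla'
      have := hg l
      rw [Function.update_of_ne hla, Function.update_of_ne hla', htt] at this
      change g l ∈ (if l ∈ Lg then GF D.toRD0 X else {s l}) at this
      rwa [if_pos hl] at this
  have hsub : Fintype.piFinset (Function.update (Function.update tt a' {∅}) a {∅}) ⊆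
      fam K X Lg ((Lg.erase a).erase a') s := by
    intro g hg
    obtain ⟨g1, g1', g2, g3⟩ := hmem g hg
    unfold fam
    rw [Fintype.mem_piFinset]
    intro l
    by_cases hl : l ∈ Lg
    · by_cases hla : l = a
      · have h3 : l ∉ (Lg.erase a).erase a' := by
          intro h4
          rw [Finset.mem_erase, Finset.mem_erase] at h4
          exact h4.2.1 hla
        rw [if_neg h3, if_pos hl, Finset.mem_singleton, hla]
        exact g1
      · by_cases hla' : l = a'
        · have h3 : l ∉ (Lg.erase a).erase a' := by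
            intro h4
            rw [Finset.mem_erase] at h4
            exact h4.1 hla'
          rw [if_neg h3, if_pos hl, Finset.mem_singleton, hla']
          exact g1'
        · have h3 : l ∈ (Lg.erase a).erase a' := by
            rw [Finset.mem_erase, Finset.mem_erase]
            exact ⟨hla', hla, hl⟩
          rw [if_pos h3, mem_AF]
          exact ((akb_mem_GF D.toRD0).1 (g3 l hl hla hla')).1
    · have h3 : l ∉ (Lg.erase a).erase a' := by
        intro h4
        rw [Finset.mem_erase, Finset.mem_erase] at h4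
        exact hl h4.2.2
      rw [if_neg h3, if_neg hl, Finset.mem_singleton]
      exact g2 l hl
  -- sum of the estimates
  have hfin : ∀ (c₀ : ℝ) (w : (J → Finset (Pl K)) → ℝ), 0 ≤ c₀ → (∀ g, 0 ≤ w g) →
      (∀ g : J → Finset (Pl K), g a = ∅ → g a' = ∅ → (∀ l, l ∉ Lg → g l = s l) →
        (∀ l ∈ Lg, l ≠ a → l ≠ a' → g l ∈ GF D.toRD0 X) → (∀ i, bn blk i g ≤ Y i) →
        ‖S g‖ ≤ c₀ * w g) →
      ‖TT3 D.toRD0 P b E η blk Y X Lg z₂ s κ h‖ ≤ c₀ *
        ∑ g ∈ (fam K X Lg ((Lg.erase a).erase a') s).filter (fun g => ∀ i, bn blk i g ≤ Y i),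
          w g := by
    intro c₀ w hc₀ hw hSw
    obtain ⟨Bd, hBd⟩ : ∃ Bd : (J → Finset (Pl K)) → ℝ, ∀ g, Bd g =
        (if ∀ i, bn blk i g ≤ Y i then w g else 0) := ⟨_, fun _ => rfl⟩
    have hBd0 : ∀ g, 0 ≤ Bd g := by
      intro g
      rw [hBd]
      split_ifs
      · exact hw g
      · exact le_rfl
    rw [hTT]
    calc ‖∑ g ∈ Fintype.piFinset (Function.update (Function.update tt a' {∅}) a {∅}), S g‖
        ≤ ∑ g ∈ Fintype.piFinset (Function.update (Function.update tt a' {∅}) a {∅}),
          c₀ * Bd g := by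
          refine (norm_sum_le _ _).trans (Finset.sum_le_sum fun g hg => ?_)
          obtain ⟨g1, g1', g2, g3⟩ := hmem g hg
          by_cases hbn : ∀ i, bn blk i g ≤ Y i
          · rw [hBd, if_pos hbn]
            exact hSw g g1 g1' g2 g3 hbn
          · have h0 : S g = 0 := by
              rw [hS]
              apply Finset.sum_eq_zero
              intro n _
              apply Finset.sum_eq_zero
              intro n' _
              rw [if_neg]
              intro hc
              apply hbn
              intro i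
              have h1 : bn blk i (Function.update (Function.update g a n) a' n') ≤ Y i := hc.1.2.2 i
              refine le_trans ?_ h1
              unfold bn
              apply Finset.prod_le_prod
              · intro l _
                exact (akb_nr_pos _).le
              · intro l _
                by_cases hl' : l = a'
                · rw [hl', g1', Function.update_self]
                  exact nr_mono (Finset.empty_subset _)
                · rw [Function.update_of_ne hl']
                  by_cases hl : l = a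
                  · rw [hl, g1, Function.update_self]
                    exact nr_mono (Finset.empty_subset _)
                  · rw [Function.update_of_ne hl]
            rw [h0, norm_zero]
            exact mul_nonneg hc₀ (hBd0 g)
      _ ≤ ∑ g ∈ fam K X Lg ((Lg.erase a).erase a') s, c₀ * Bd g :=
          Finset.sum_le_sum_of_subset_of_nonneg hsub fun g _ _ => mul_nonneg hc₀ (hBd0 g)
      _ = _ := by
          rw [← Finset.mul_sum, Finset.sum_filter]
          congr 1
          exact Finset.sum_congr rfl fun g _ => hBd g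
  have hbn0 : ∀ i (g : J → Finset (Pl K)), 0 < bn blk i g := fun i g =>
    lt_of_lt_of_le one_pos (akb_one_le_bn blk i g)
  have hGFsub : ∀ y : ℝ, y ≤ X → GF D.toRD0 y ⊆ GF D.toRD0 X := by
    intro y hy n hn
    rw [akb_mem_GF] at hn ⊢
    exact ⟨hn.1.trans hy, hn.2⟩
  by_cases hblk : blk a = blk a'
  · -- same block
    have h1 := hfin (N * (CH * z₂ ^ (-δH) * (1 + Real.log X) ^ AH))
      (fun g => Y (blk a) / bn blk (blk a) g) (by positivity)
      (fun g => div_nonneg (hY _).1.le (hbn0 _ _).le) (by
        intro g g1 g1' g2 g3 hbn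
        obtain ⟨y, hy⟩ : ∃ y, y = Y (blk a) / bn blk (blk a) g := ⟨_, rfl⟩
        have hy1 : 1 ≤ y := by
          rw [hy, le_div_iff₀ (hbn0 _ _), one_mul]
          exact hbn _
        have hyX : y ≤ X := by
          rw [hy]
          exact (div_le_self (hY _).1.le (akb_one_le_bn blk _ g)).trans (hY _).2
        have hly : Real.log y ≤ Real.log X := Real.log_le_log (by linarith) hyX
        have hly0 : 0 ≤ Real.log y := Real.log_nonneg hy1
        show ‖S g‖ ≤ N * (CH * z₂ ^ (-δH) * (1 + Real.log X) ^ AH) *
          (Y (blk a) / bn blk (blk a) g)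
        rw [← hy]
        have hcore := kpa_core hp hζ D P blk X z₂ Y b E η Lg s (fun l hl => (hs l hl).1) κ hκ h hh a a'
          haa ha ha' g g1 g1' g2 g3 (fun n n' => nr n * nr n' ≤ y) (by
            intro n n'
            have e1 : bn blk (blk a) (Function.update (Function.update g a n) a' n') =
                nr n * nr n' * bn blk (blk a) g := by
              have e2 := akb_bn_same blk a' (Function.update g a n)
                (by rw [Function.update_of_ne haa.symm, g1']) n'
              rw [← hblk, akb_bn_same blk a g g1] at e2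
              rw [e2]
              ring
            constructor
            · intro h2
              have h3 := h2 (blk a)
              rw [e1] at h3
              rw [hy, le_div_iff₀ (hbn0 _ _)]
              exact h3
            · intro h2 i
              by_cases hi : i = blk a
              · rw [hi, e1]
                rw [hy, le_div_iff₀ (hbn0 _ _)] at h2
                exact h2
              · rw [akb_bn_ne blk a' i (by rw [← hblk]; exact hi), akb_bn_ne blk a i hi]
                exact hbn i) (CH * y * z₂ ^ (-δH) * (1 + Real.log X) ^ AH) (by positivity) (by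
            intro α β hα hβ
            have h2 := hbH (P.lk a a') hlk α β hα hβ y z₂ hy1 hz₂
            have h3 : ∑ n ∈ GF D.toRD0 X, ∑ n' ∈ GF D.toRD0 X,
                (if z₂ < nr n ∧ z₂ < nr n' ∧ nr n * nr n' ≤ y ∧ Disjoint n n' then
                α n * β n' * ep p (P.lk a a' * Lf D.toRD0 n (pf D.toRD0 n')) else 0) =
                ∑ n ∈ GF D.toRD0 y, ∑ n' ∈ GF D.toRD0 y,
                (if z₂ < nr n ∧ z₂ < nr n' ∧ nr n * nr n' ≤ y ∧ Disjoint n n' then
                α n * β n' * ep p (P.lk a a' * Lf D.toRD0 n (pf D.toRD0 n')) else 0) := by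
              symm
              have e1 : ∀ n : Finset (Pl K), ∑ n' ∈ GF D.toRD0 y,
                (if z₂ < nr n ∧ z₂ < nr n' ∧ nr n * nr n' ≤ y ∧ Disjoint n n' then
                α n * β n' * ep p (P.lk a a' * Lf D.toRD0 n (pf D.toRD0 n')) else 0) =
                ∑ n' ∈ GF D.toRD0 X,
                (if z₂ < nr n ∧ z₂ < nr n' ∧ nr n * nr n' ≤ y ∧ Disjoint n n' then
                α n * β n' * ep p (P.lk a a' * Lf D.toRD0 n (pf D.toRD0 n')) else 0) := by
                intro n
                apply Finset.sum_subset (hGFsub y hyX)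
                intro n' hn' hn'2
                rw [if_neg]
                rintro ⟨_, _, h5, _⟩
                apply hn'2
                rw [akb_mem_GF] at hn' ⊢
                refine ⟨?_, hn'.2⟩
                have := one_le_nr n
                have := one_le_nr n'
                nlinarith
              rw [Finset.sum_congr rfl fun n _ => e1 n]
              apply Finset.sum_subset (hGFsub y hyX)
              intro n hn hn2
              apply Finset.sum_eq_zero
              intro n' _
              rw [if_neg]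
              rintro ⟨_, _, h5, _⟩
              apply hn2
              rw [akb_mem_GF] at hn ⊢
              refine ⟨?_, hn.2⟩
              have := one_le_nr n
              have := one_le_nr n'
              nlinarith
            rw [h3]
            refine h2.trans ?_
            have h4 : (1 + Real.log y) ^ AH ≤ (1 + Real.log X) ^ AH :=
              Real.rpow_le_rpow (by linarith) (by linarith) hAH
            gcongr)
        rw [hS]
        refine hcore.trans (le_of_eq ?_)
        rw [hN]
        ring)
    have h2 := hks Lg s Y X hX1 hY a ha a' ha' haa hblk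
    refine h1.trans ?_
    have h3 : 0 ≤ N * (CH * z₂ ^ (-δH) * (1 + Real.log X) ^ AH) := by positivity
    refine (mul_le_mul_of_nonneg_left h2 h3).trans ?_
    have h4 : (1 + Real.log X) ^ (AH + A₂) = (1 + Real.log X) ^ AH * (1 + Real.log X) ^ A₂ :=
      Real.rpow_add hL0 _ _
    rw [h4] at n1
    calc N * (CH * z₂ ^ (-δH) * (1 + Real.log X) ^ AH) *
          (C₂ * (∏ i, Y i) / sn Lg s * (1 + Real.log X) ^ A₂)
        = (∏ i, Y i) / sn Lg s * (N * CH * C₂ * z₂ ^ (-δH) *
          ((1 + Real.log X) ^ AH * (1 + Real.log X) ^ A₂)) := by ring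
      _ ≤ _ := mul_le_mul_of_nonneg_left n1 hq0
  · -- different blocks
    have h1 := hfin (N * (CB * 2 ^ AB * z₂ ^ (-δB) * (1 + Real.log X) ^ AB))
      (fun g => (Y (blk a) / bn blk (blk a) g) * (Y (blk a') / bn blk (blk a') g))
      (by positivity)
      (fun g => mul_nonneg (div_nonneg (hY _).1.le (hbn0 _ _).le)
        (div_nonneg (hY _).1.le (hbn0 _ _).le)) (by
        intro g g1 g1' g2 g3 hbn
        obtain ⟨y, hy⟩ : ∃ y, y = Y (blk a) / bn blk (blk a) g := ⟨_, rfl⟩
        obtain ⟨y', hy'⟩ : ∃ y', y' = Y (blk a') / bn blk (blk a') g := ⟨_, rfl⟩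
        have hy1 : 1 ≤ y := by
          rw [hy, le_div_iff₀ (hbn0 _ _), one_mul]
          exact hbn _
        have hyX : y ≤ X := by
          rw [hy]
          exact (div_le_self (hY _).1.le (akb_one_le_bn blk _ g)).trans (hY _).2
        have hy1' : 1 ≤ y' := by
          rw [hy', le_div_iff₀ (hbn0 _ _), one_mul]
          exact hbn _
        have hyX' : y' ≤ X := by
          rw [hy']
          exact (div_le_self (hY _).1.le (akb_one_le_bn blk _ g)).trans (hY _).2
        have hyy1 : 1 ≤ y * y' := one_le_mul_of_one_le_of_one_le hy1 hy1'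
        have hly : Real.log (y * y') ≤ 2 * Real.log X := by
          rw [Real.log_mul (by linarith) (by linarith)]
          have := Real.log_le_log (by linarith) hyX
          have := Real.log_le_log (by linarith) hyX'
          linarith
        have hly0 : 0 ≤ Real.log (y * y') := Real.log_nonneg hyy1
        show ‖S g‖ ≤ N * (CB * 2 ^ AB * z₂ ^ (-δB) * (1 + Real.log X) ^ AB) *
          ((Y (blk a) / bn blk (blk a) g) * (Y (blk a') / bn blk (blk a') g))
        rw [← hy, ← hy']
        obtain ⟨sz, hszd⟩ : ∃ sz : Finset (Pl K) → Finset (Pl K) → Prop, ∀ n n',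
            sz n n' ↔ (nr n ≤ y ∧ nr n' ≤ y') := ⟨_, fun _ _ => Iff.rfl⟩
        have hcore := kpa_core hp hζ D P blk X z₂ Y b E η Lg s (fun l hl => (hs l hl).1) κ hκ h hh a a'
          haa ha ha' g g1 g1' g2 g3 sz (by
            intro n n'
            rw [hszd]
            have e1 : bn blk (blk a') (Function.update (Function.update g a n) a' n') =
                nr n' * bn blk (blk a') g := by
              have e2 := akb_bn_same blk a' (Function.update g a n)
                (by rw [Function.update_of_ne haa.symm, g1']) n'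
              rw [akb_bn_ne blk a (blk a') (fun h => hblk h.symm)] at e2
              exact e2
            have e1' : bn blk (blk a) (Function.update (Function.update g a n) a' n') =
                nr n * bn blk (blk a) g := by
              rw [akb_bn_ne blk a' (blk a) hblk, akb_bn_same blk a g g1]
            constructor
            · intro h2
              have h3 := h2 (blk a)
              have h4 := h2 (blk a')
              rw [e1'] at h3
              rw [e1] at h4
              rw [hy, hy', le_div_iff₀ (hbn0 _ _), le_div_iff₀ (hbn0 _ _)]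
              exact ⟨h3, h4⟩
            · rintro ⟨h2, h2'⟩ i
              rw [hy, le_div_iff₀ (hbn0 _ _)] at h2
              rw [hy', le_div_iff₀ (hbn0 _ _)] at h2'
              by_cases hi : i = blk a
              · rw [hi, e1']
                exact h2
              · by_cases hi' : i = blk a'
                · rw [hi', e1]
                  exact h2'
                · rw [akb_bn_ne blk a' i hi', akb_bn_ne blk a i hi]
                  exact hbn i) (CB * (y * y') * z₂ ^ (-δB) * (2 * (1 + Real.log X)) ^ AB)
          (by positivity) (by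
            intro α β hα hβ
            have h2 := hbB (P.lk a a') hlk α β hα hβ y y' z₂ hy1 hy1' hz₂
            have h3 : ∑ n ∈ GF D.toRD0 X, ∑ n' ∈ GF D.toRD0 X,
                (if z₂ < nr n ∧ z₂ < nr n' ∧ sz n n' ∧ Disjoint n n' then
                α n * β n' * ep p (P.lk a a' * Lf D.toRD0 n (pf D.toRD0 n')) else 0) =
                ∑ n ∈ GF D.toRD0 y, ∑ n' ∈ GF D.toRD0 y',
                (if z₂ < nr n ∧ z₂ < nr n' ∧ Disjoint n n' then
                α n * β n' * ep p (P.lk a a' * Lf D.toRD0 n (pf D.toRD0 n')) else 0) := by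
              symm
              have e1 : ∀ n ∈ GF D.toRD0 y, ∑ n' ∈ GF D.toRD0 y',
                (if z₂ < nr n ∧ z₂ < nr n' ∧ Disjoint n n' then
                α n * β n' * ep p (P.lk a a' * Lf D.toRD0 n (pf D.toRD0 n')) else 0) =
                ∑ n' ∈ GF D.toRD0 X,
                (if z₂ < nr n ∧ z₂ < nr n' ∧ sz n n' ∧ Disjoint n n' then
                α n * β n' * ep p (P.lk a a' * Lf D.toRD0 n (pf D.toRD0 n')) else 0) := by
                intro n hn
                rw [akb_mem_GF] at hn
                rw [← Finset.sum_subset (hGFsub y' hyX')]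
                · apply Finset.sum_congr rfl
                  intro n' hn'
                  rw [akb_mem_GF] at hn'
                  by_cases h5 : z₂ < nr n ∧ z₂ < nr n' ∧ Disjoint n n'
                  · rw [if_pos h5, if_pos ⟨h5.1, h5.2.1, (hszd n n').2 ⟨hn.1, hn'.1⟩, h5.2.2⟩]
                  · rw [if_neg h5, if_neg (fun h6 => h5 ⟨h6.1, h6.2.1, h6.2.2.2⟩)]
                · intro n' hn' hn'2
                  rw [if_neg]
                  rintro ⟨_, _, h6, _⟩
                  have h5 := ((hszd n n').1 h6).2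
                  apply hn'2
                  rw [akb_mem_GF] at hn' ⊢
                  exact ⟨h5, hn'.2⟩
              rw [Finset.sum_congr rfl e1]
              apply Finset.sum_subset (hGFsub y hyX)
              intro n hn hn2
              apply Finset.sum_eq_zero
              intro n' _
              rw [if_neg]
              rintro ⟨_, _, h6, _⟩
              have h5 := ((hszd n n').1 h6).1
              apply hn2
              rw [akb_mem_GF] at hn ⊢
              exact ⟨h5, hn.2⟩
            rw [h3]
            refine h2.trans ?_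
            have h4 : (1 + Real.log (y * y')) ^ AB ≤ (2 * (1 + Real.log X)) ^ AB :=
              Real.rpow_le_rpow (by linarith) (by linarith) hAB
            have h5 : CB * y * y' * z₂ ^ (-δB) = CB * (y * y') * z₂ ^ (-δB) := by ring
            rw [h5]
            apply mul_le_mul_of_nonneg_left h4
            positivity)
        rw [hS]
        refine hcore.trans (le_of_eq ?_)
        rw [hN, Real.mul_rpow (by norm_num) hL0.le]
        ring)
    have h2 := hks3 Lg s Y X hX1 hY a ha a' ha' hblk
    refine h1.trans ?_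
    have h3 : 0 ≤ N * (CB * 2 ^ AB * z₂ ^ (-δB) * (1 + Real.log X) ^ AB) := by positivity
    refine (mul_le_mul_of_nonneg_left h2 h3).trans ?_
    have h4 : (1 + Real.log X) ^ (AB + A₃) = (1 + Real.log X) ^ AB * (1 + Real.log X) ^ A₃ :=
      Real.rpow_add hL0 _ _
    rw [h4] at n2
    calc N * (CB * 2 ^ AB * z₂ ^ (-δB) * (1 + Real.log X) ^ AB) *
          (C₃ * (∏ i, Y i) / sn Lg s * (1 + Real.log X) ^ A₃)
        = (∏ i, Y i) / sn Lg s * (N * (CB * 2 ^ AB) * C₃ * z₂ ^ (-δB) *
          ((1 + Real.log X) ^ AB * (1 + Real.log X) ^ A₃)) := by ring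
      _ ≤ _ := mul_le_mul_of_nonneg_left n2 hq0

end H57.LS
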