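import Pool.Agent.H57.LS.Def

/-!
# [H57 LS ABL] abstract block decomposition, general form, 150-220 lines (copy). File Pool/Agent/H57/LS/Abl.lean

`ablk3` is `H38.BB.ablk` (Pool/Agent/H38/BB/ABlk.lean) with a general bound `M / sn + 1` for the blocks: then the whole sum is `≤ C (M (log Y)^(1/2) + √Y)`. COPY the proof of `ablk` (it proves exactly this: `U * (sn Lg s)⁻¹ + 1` for the
blocks with `U` in place of `M`; the part from the block bound on is unchanged: `hsum`, `htot`, `athr`). The number of the pairs `(j, Lg)` is at most `(#J + 1) 2^#J`.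
-/

set_option autoImplicit false

open scoped NumberField
open IsDedekindDomain
open scoped Classical

noncomputable section

namespace H57.LS

open H63.MA H38.BB

theorem ablk3 {K : Type} [Field K] [NumberField K] {p : ℕ} {ζ : K} (D : RD0 K p ζ) {J : Type}
    [Fintype J] (B₁ A : ℕ) :
    ∃ (C X₀ : ℝ) (B₂ : ℕ), 0 < C ∧ 3 ≤ X₀ ∧ ∀ Y : ℝ, X₀ ≤ Y → ∀ Ψ : (J → Finset (Pl K)) → ℂ,
      (∀ g, ‖Ψ g‖ ≤ 1) → ∀ M : ℝ, 0 ≤ M →
      (∀ z₁ z₂ : ℝ, 1 ≤ z₁ → z₁ ^ B₁ ≤ z₂ → Real.log Y ^ B₁ ≤ z₂ → Real.log Y ^ A ≤ z₁ →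
        z₁ ≤ Real.log Y ^ B₂ → ∀ (Lg : Finset J) (s : J → Finset (Pl K)), (∀ l ∈ Lg, s l = ∅) →
        (∀ l, l ∉ Lg → (∀ v ∈ s l, D.Gd v) ∧ nr (s l) ≤ z₁) →
        ‖∑ g ∈ Fintype.piFinset (fun a => if a ∈ Lg then GF D Y else {s a}),
          if (∀ a ∈ Lg, z₂ < nr (g a)) ∧ ∏ a, nr (g a) ≤ Y then Ψ g else 0‖ ≤
          M / sn Lg s + 1) →
      ‖∑ g ∈ Fintype.piFinset (fun _ : J => GF D Y),
        if ∏ a, nr (g a) ≤ Y then Ψ g else 0‖ ≤
        C * (M * Real.log Y ^ (1 / 2 : ℝ) + Y ^ (1 / 2 : ℝ)) := by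
  obtain ⟨C2, hC2, hsm⟩ := smf_sum K (J := J) (af_inv K)
  obtain ⟨C0', hC0', haf'⟩ := af_card K
  obtain ⟨C0, hC0⟩ : ∃ C0 : ℝ, C0 = max C0' 1 := ⟨_, rfl⟩
  have hC01 : 1 ≤ C0 := by rw [hC0]; exact le_max_right _ _
  have haf : ∀ y : ℝ, 1 ≤ y → ((AF K y).card : ℝ) ≤ C0 * y := by
    intro y hy
    refine (haf' y hy).trans (mul_le_mul_of_nonneg_right ?_ (by linarith))
    rw [hC0]
    exact le_max_left _ _
  obtain ⟨B, hB⟩ : ∃ B : ℕ, B = max 2 B₁ := ⟨_, rfl⟩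
  have hB2 : 2 ≤ B := by rw [hB]; exact le_max_left _ _
  have hBa : B₁ ≤ B := by rw [hB]; exact le_max_right _ _
  obtain ⟨A', hA'⟩ : ∃ A' : ℕ, A' = max A 1 := ⟨_, rfl⟩
  have hA'A : A ≤ A' := by rw [hA']; exact le_max_left _ _
  have hA'1 : 1 ≤ A' := by rw [hA']; exact le_max_right _ _
  obtain ⟨n, hn⟩ : ∃ n : ℕ, n = Fintype.card J := ⟨_, rfl⟩
  obtain ⟨X₀, hX₀3, hlarge⟩ := aup_large (A' * B ^ n) (n * 2) C0 hC01
  refine ⟨((n : ℝ) + 1) * 2 ^ n * (C2 + 1), X₀, A' * B ^ n, by positivity,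
    hX₀3, fun Y hY Ψ hΨ M hM hyp => ?_⟩
  have hY3 : 3 ≤ Y := hX₀3.trans hY
  have hY0 : 0 < Y := by linarith
  have hL1 : 1 ≤ Real.log Y := by
    rw [Real.le_log_iff_exp_le hY0]
    linarith [Real.exp_one_lt_d9]
  obtain ⟨L, hL⟩ : ∃ L : ℝ, L = Real.log Y := ⟨_, rfl⟩
  obtain ⟨hl1, hl2, hl3⟩ := hlarge Y hY
  have hLY : L ≤ Y := by
    rw [hL]
    exact (Real.log_le_sub_one_of_pos hY0).trans (by linarith)
  rw [← hL] at hl1 hl2 hl3 hL1 hyp
  have hL0 : 0 < L := by linarith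
  -- the square root of `L`
  obtain ⟨q, hq⟩ : ∃ q : ℝ, q = Real.sqrt L := ⟨_, rfl⟩
  have hq0 : 0 < q := by rw [hq]; exact Real.sqrt_pos.2 hL0
  have hqq : q * q = L := by rw [hq]; exact Real.mul_self_sqrt hL0.le
  have hq1 : 1 ≤ q := by rw [hq]; exact Real.one_le_sqrt.2 hL1
  have hLq : L ^ (1 / 2 : ℝ) = q := by
    rw [hq, Real.sqrt_eq_rpow]
  have hYq : Y ^ (1 / 2 : ℝ) = Real.sqrt Y := by
    rw [Real.sqrt_eq_rpow]
  have hqY : q ≤ Real.sqrt Y := by
    rw [hq]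
    exact Real.sqrt_le_sqrt hLY
  obtain ⟨z, hz⟩ : ∃ z : ℕ → ℝ, z = fun j => L ^ (A' * B ^ j) := ⟨_, rfl⟩
  have hzj : ∀ j, z j = L ^ (A' * B ^ j) := fun j => by rw [hz]
  have hzm : Monotone z := by
    intro i j hij
    rw [hzj, hzj]
    exact pow_le_pow_right₀ hL1 (Nat.mul_le_mul_left _ (Nat.pow_le_pow_right (by omega) hij))
  have hz1 : ∀ j, 1 ≤ z j := fun j => by rw [hzj]; exact one_le_pow₀ hL1
  have hzX : ∀ j, j ≤ Fintype.card J → z j ≤ Y := by
    intro j hj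
    refine (hzm hj).trans ?_
    rw [hzj, ← hn]
    exact hl1
  have hzs : ∀ j, z (j + 1) = z j ^ B := by
    intro j
    rw [hzj, hzj, ← pow_mul, pow_succ, mul_assoc]
  have hzB : ∀ j, z j ^ B₁ ≤ z (j + 1) := by
    intro j
    rw [hzs]
    exact pow_le_pow_right₀ (hz1 j) hBa
  have hLz : ∀ j, L ^ B₁ ≤ z (j + 1) := by
    intro j
    rw [hzj]
    refine pow_le_pow_right₀ hL1 (hBa.trans ?_)
    calc B = 1 * B ^ 1 := by ring
      _ ≤ A' * B ^ (j + 1) := Nat.mul_le_mul hA'1 (Nat.pow_le_pow_right (by omega) (by omega))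
  have hEz : ∀ j, L ^ A ≤ z j := by
    intro j
    rw [hzj]
    refine pow_le_pow_right₀ hL1 (hA'A.trans ?_)
    exact Nat.le_mul_of_pos_right _ (Nat.pow_pos (by omega))
  have hblock : ∀ (j : ℕ), j ≤ n → ∀ (Lg : Finset J), ∀ s ∈ SmF D z j Lg,
      ‖∑ g ∈ Fintype.piFinset (fun a => if a ∈ Lg then GF D Y else {s a}),
      if ∀ a ∈ Lg, z (j + 1) < nr (g a) then
        (if ∏ a, nr (g a) ≤ Y then Ψ g else 0) else 0‖ ≤ M * (sn Lg s)⁻¹ + 1 := by
    intro j hjn Lg s hs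
    have hcomb : ∀ g : J → Finset (Pl K), (if ∀ a ∈ Lg, z (j + 1) < nr (g a) then
        (if ∏ a, nr (g a) ≤ Y then Ψ g else 0) else 0) =
        if (∀ a ∈ Lg, z (j + 1) < nr (g a)) ∧ ∏ a, nr (g a) ≤ Y then Ψ g else 0 := by
      intro g
      by_cases h1 : ∀ a ∈ Lg, z (j + 1) < nr (g a)
      · rw [if_pos h1]
        by_cases h2 : ∏ a, nr (g a) ≤ Y
        · rw [if_pos h2, if_pos ⟨h1, h2⟩]
        · rw [if_neg h2, if_neg (fun h => h2 h.2)]
      · rw [if_neg h1, if_neg (fun h => h1 h.1)]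
    rw [Finset.sum_congr rfl fun g _ => hcomb g]
    rw [SmF, Finset.mem_filter, Fintype.mem_piFinset] at hs
    have hs1 : ∀ l, l ∉ Lg → (∀ v ∈ s l, D.Gd v) ∧ nr (s l) ≤ z j := by
      intro l hl
      have := hs.1 l
      rw [if_neg hl, GF, Finset.mem_filter, mem_AF] at this
      exact ⟨this.2, this.1⟩
    have hs2 : ∀ l ∈ Lg, s l = ∅ := by
      intro l hl
      have := hs.1 l
      rw [if_pos hl, Finset.mem_singleton] at this
      exact this
    have hc := hyp (z j) (z (j + 1)) (hz1 j) (hzB j) (hLz j) (hEz j)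
      (by rw [← hzj]; exact hzm hjn) Lg s hs2 hs1
    rwa [div_eq_mul_inv] at hc
  obtain ⟨W, hW⟩ : ∃ W : ℝ, W = (C2 + 1) * (M * q + Real.sqrt Y) :=
    ⟨_, rfl⟩
  have hsum : ∀ (j : ℕ), j ≤ n → ∀ (Lg : Finset J),
      ∑ s ∈ SmF D z j Lg, (M * (sn Lg s)⁻¹ + 1) ≤ W := by
    intro j hj Lg
    rw [Finset.sum_add_distrib, ← Finset.mul_sum]
    have h1 : ∑ s ∈ SmF D z j Lg, (sn Lg s)⁻¹ ≤ C2 * q := by
      have h2 := hsm p ζ D z j Lg (hz1 j)
      have h3 : (1 + Real.log (z j)) ^ Fintype.card J ≤ q := by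
        have h4 : z j ≤ L ^ (A' * B ^ n) := by
          rw [← hzj]
          exact hzm hj
        have h5 := Real.log_le_log (by linarith [hz1 j]) h4
        have h6 : (1 + Real.log (z j)) ^ n ≤ (1 + Real.log (L ^ (A' * B ^ n))) ^ n :=
          pow_le_pow_left₀ (by linarith [Real.log_nonneg (hz1 j)]) (by linarith) n
        rw [← hn, hq]
        refine h6.trans ((le_abs_self _).trans (Real.abs_le_sqrt ?_))
        rw [← pow_mul]
        exact hl2
      exact h2.trans (mul_le_mul_of_nonneg_left h3 hC2.le)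
    have h3 : ∑ s ∈ SmF D z j Lg, (1 : ℝ) ≤ Real.sqrt Y := by
      rw [Finset.sum_const, nsmul_eq_mul, mul_one]
      refine le_trans ?_ hl3
      have h4 : ((SmF D z j Lg).card : ℝ) ≤
          ((Fintype.piFinset fun a => if a ∈ Lg then {∅} else GF D (z j)).card : ℝ) := by
        exact_mod_cast Finset.card_le_card (Finset.filter_subset _ _)
      refine h4.trans ?_
      rw [Fintype.card_piFinset]
      push_cast
      have h7 : 1 ≤ C0 * L ^ (A' * B ^ n) :=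
        one_le_mul_of_one_le_of_one_le hC01 (one_le_pow₀ hL1)
      have h5 : ∀ a ∈ (Finset.univ : Finset J),
          (((if a ∈ Lg then {∅} else GF D (z j)).card : ℕ) : ℝ) ≤
            C0 * L ^ (A' * B ^ n) := by
        intro a _
        by_cases ha : a ∈ Lg
        · rw [if_pos ha, Finset.card_singleton, Nat.cast_one]
          exact h7
        · rw [if_neg ha]
          have h8 : ((GF D (z j)).card : ℝ) ≤ ((AF K (z j)).card : ℝ) := by
            exact_mod_cast Finset.card_le_card (Finset.filter_subset _ _)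
          have h9 : z j ≤ L ^ (A' * B ^ n) := by
            rw [← hzj]
            exact hzm hj
          exact (h8.trans (haf _ (hz1 j))).trans
            (mul_le_mul_of_nonneg_left h9 (by linarith))
      refine (Finset.prod_le_prod (fun _ _ => Nat.cast_nonneg _) h5).trans ?_
      rw [Finset.prod_const, Finset.card_univ, ← hn]
      exact pow_le_pow_right₀ h7 (by omega)
    have h4 : M * ∑ s ∈ SmF D z j Lg, (sn Lg s)⁻¹ ≤ M * (C2 * q) :=
      mul_le_mul_of_nonneg_left h1 hM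
    have h5 : 0 ≤ M * q := mul_nonneg hM hq0.le
    have h6 : 0 ≤ C2 * Real.sqrt Y := mul_nonneg hC2.le (Real.sqrt_nonneg _)
    rw [hW]
    nlinarith
  rw [athr D z hzm Y hzX, ← hL, hLq, hYq]
  have htot : ∀ j ∈ Finset.range (Fintype.card J + 1), ∀ Lg ∈ (Finset.univ : Finset (Finset J)),
      ‖∑ s ∈ SmF D z j Lg,
        ∑ g ∈ Fintype.piFinset (fun a => if a ∈ Lg then GF D Y else {s a}),
        if ∀ a ∈ Lg, z (j + 1) < nr (g a) then
        (if ∏ a, nr (g a) ≤ Y then Ψ g else 0) else 0‖ ≤ W := by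
    intro j hj Lg _
    have hj' : j ≤ n := by
      rw [Finset.mem_range] at hj
      omega
    exact (norm_sum_le _ _).trans ((Finset.sum_le_sum fun s hs => hblock j hj' Lg s hs).trans
      (hsum j hj' Lg))
  refine (norm_sum_le _ _).trans ((Finset.sum_le_card_nsmul _ _ (2 ^ n * W) fun j hj => ?_).trans ?_)
  · refine (norm_sum_le _ _).trans ((Finset.sum_le_card_nsmul _ _ W (htot j hj)).trans ?_)
    rw [Finset.card_univ, Fintype.card_finset, nsmul_eq_mul, ← hn]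
    push_cast
    exact le_rfl
  · rw [Finset.card_range, nsmul_eq_mul, ← hn, hW]
    push_cast
    refine le_of_eq ?_
    ring

end H57.LS
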