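import Pool.Agent.H57.LS.Def
import Pool.Agent.H38.BB.CMer

/-!
# [H57 LS CNT] counting families with smooth variables, 150-250 lines. File Pool/Agent/H57/LS/Cnt.lean

`Js` the smooth types: `g a` has only primes of norm `≤ T` for `a ∈ Js`. In the block `(Lg, s)` the number of the families with `∏ nr ≤ Y` is
`≤ C Y / sn * (1 + log Y)^(N - 1) / log Y * (log T)^A + 1` if at most `N - 1` of the large types are not in `Js`.

Proof. `r = #(Lg \ Js) ≤ N - 1`, `X' = Y / sn`. Sets of primes: `AF K X` are the finite sets of primes with `nr ≤ X`.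
(a) `smo_inv`: `∑ n ∈ AF K X, n T-smooth, (nr n)⁻¹ ≤ ∏_{nm v ≤ T} (1 + 1 / nm v) ≤ exp (∑_{nm v ≤ T} 1 / nm v) ≤ C log T` (Mertens upper bound; `af_inv` of H63/MA gives `∑ n ∈ AF K T, (nr n)⁻¹ ≤ C (1 + log T)`, which is
enough for primes: `∑_{nm v ≤ T} 1/nm v` has to be `≤ loglog T + C`; see `mer_log`, `mer` in H38/BB/CMer or `EulA` in H63/MA, or use a weaker bound `(log T)^A` for some `A`: e.g. `∑_{nm v ≤ T} 1 / nm v ≤ ∑_{nm v ≤ T} nm v^(-s) e`
with `s = 1 + 1 / log T` and `PZ univ s ≤ log (1 / (s - 1)) + C`, which gives `(log T)^e`; the exponent does not matter). The same with `nr^(-(1 - σ))`, `σ = 1 / log T`: `nm v^σ ≤ e` for `nm v ≤ T`, so the product is `≤ (C log T)^A`.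
(b) `r ≥ 1`: fix the smooth large variables (product `u`), the number of the others is `≤ C (X' / u) (1 + log Y)^(r - 1)` (`tn_le_one`, for the type set `Lg \ Js` with the smooth variables as part of `s`); sum over the smooth variables with (a):
`≤ C X' (1 + log Y)^(N - 2) (log T)^A ≤ C X' (1 + log Y)^(N - 1) / log Y * (log T)^A`.
(c) `r = 0`, `Lg` nonempty: all large variables are smooth. If `X' < √Y`: then `sn > √Y`, impossible for `Y` large since `sn ≤ z₁^#J ≤ (log Y)^(B₂ #J) ≤ √Y`. So `X' ≥ √Y` and by Rankin the number of tuples with product `≤ X'` is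
`≤ X'^(1 - σ) (C log T)^A`, `X'^(-σ) ≤ exp (-(log Y) / (2 log T)) ≤ exp (-(1/2) √(log Y)) ≤ C / log Y` because `(log T)^2 ≤ log Y`.
(d) `Lg = ∅`: at most one family.
-/

set_option autoImplicit false

open scoped NumberField
open IsDedekindDomain
open scoped Classical

noncomputable section

namespace H57.LS

open H63.MA H38.BB

private theorem cnt_mem {K : Type} [Field K] [NumberField K] {p : ℕ} {ζ : K} {D : RD0 K p ζ} {T Y : ℝ}
    {n : Finset (Pl K)} (hn : n ∈ GF D Y) (hT : Smo T n) : n ∈ (gdY D T).powerset := by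
  rw [Finset.mem_powerset]
  intro v hv
  rw [mer_mem]
  unfold GF at hn
  rw [Finset.mem_filter] at hn
  exact ⟨hT v hv, hn.2 v hv⟩

private theorem cnt_mert (K : Type) [Field K] [NumberField K] :
    ∃ C : ℝ, 0 < C ∧ ∀ (p : ℕ) (ζ : K) (D : RD0 K p ζ) (T : ℝ), 3 ≤ T →
      ∑ v ∈ gdY D T, (1 : ℝ) / nm v ≤ Real.log (Real.log T) + C := by
  obtain ⟨C₁, hC₁, h1⟩ := mer K 1 zero_le_one
  obtain ⟨C₂, h2⟩ := pz_all K
  refine ⟨C₁ + |C₂|, by positivity, fun p ζ D T hT => ?_⟩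
  have h3 := h1 p ζ D (fun _ => 1) (fun _ => ⟨zero_le_one, le_rfl⟩) T hT
  refine h3.trans ?_
  have hl1 : 1 ≤ Real.log T := by
    rw [Real.le_log_iff_exp_le (by linarith)]
    linarith [Real.exp_one_lt_d9]
  have hl0 : 0 < Real.log T := by linarith
  have hs : 1 < 1 + 1 / Real.log T := by
    have : 0 < 1 / Real.log T := by positivity
    linarith
  have hs2 : 1 + 1 / Real.log T ≤ 2 := by
    have : 1 / Real.log T ≤ 1 := by
      rw [div_le_one hl0]
      exact hl1
    linarith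
  have h4 : (∑' v : Pl K, if D.Gd v then (1 : ℝ) * (nm v : ℝ) ^ (-(1 + 1 / Real.log T)) else 0) =
      PZ {v | D.Gd v} (1 + 1 / Real.log T) := by
    unfold PZ
    refine tsum_congr fun v => ?_
    by_cases hv : D.Gd v
    · rw [if_pos hv, one_mul, Set.indicator_of_mem (by exact hv)]
    · rw [if_neg hv, Set.indicator_of_notMem (by exact hv)]
  rw [h4]
  have h5 := pz_mono (Set.subset_univ {v : Pl K | D.Gd v}) hs
  have h6 := (abs_le.1 (h2 _ hs hs2)).2
  have h7 : 1 / (1 + 1 / Real.log T - 1) = Real.log T := by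
    rw [add_sub_cancel_left, one_div_one_div]
  rw [h7] at h6
  linarith [le_abs_self C₂]

/-- the sum over the smooth sets of primes, with Rankin's exponent -/
private theorem smo_inv (K : Type) [Field K] [NumberField K] :
    ∃ C : ℝ, 1 ≤ C ∧ ∀ (p : ℕ) (ζ : K) (D : RD0 K p ζ) (T : ℝ), 3 ≤ T →
      ∑ n ∈ (gdY D T).powerset, (nr n) ^ (-(1 - 1 / Real.log T)) ≤ C * Real.log T ^ 3 := by
  obtain ⟨C, hC, h⟩ := cnt_mert K
  refine ⟨Real.exp (3 * C), Real.one_le_exp (by positivity), fun p ζ D T hT => ?_⟩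
  have hl1 : 1 ≤ Real.log T := by
    rw [Real.le_log_iff_exp_le (by linarith)]
    linarith [Real.exp_one_lt_d9]
  have hl0 : 0 < Real.log T := by linarith
  have h1 : ∀ n : Finset (Pl K), (nr n) ^ (-(1 - 1 / Real.log T)) =
      ∏ v ∈ n, (nm v : ℝ) ^ (-(1 - 1 / Real.log T)) := by
    intro n
    unfold nr
    rw [Real.finsetProd_rpow _ _ fun v _ => Nat.cast_nonneg _]
  rw [Finset.sum_congr rfl fun n _ => h1 n, ← Finset.prod_one_add]
  have h2 : ∀ v ∈ gdY D T, 1 + (nm v : ℝ) ^ (-(1 - 1 / Real.log T)) ≤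
      Real.exp (3 * (1 / (nm v : ℝ))) := by
    intro v hv
    have hv1 : (nm v : ℝ) ≤ T := (mer_mem.1 hv).1
    have hv2 : (1 : ℝ) < nm v := by exact_mod_cast one_lt_nm v
    have hv0 : (0 : ℝ) < nm v := by linarith
    have h3 : (nm v : ℝ) ^ (-(1 - 1 / Real.log T)) ≤ 3 * (1 / (nm v : ℝ)) := by
      have h4 : -(1 - 1 / Real.log T) = -1 + 1 / Real.log T := by ring
      rw [h4, Real.rpow_add hv0, Real.rpow_neg_one, Real.rpow_def_of_pos hv0]
      have h5 : Real.log (nm v) * (1 / Real.log T) ≤ 1 := by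
        rw [mul_one_div, div_le_one hl0]
        exact Real.log_le_log hv0 hv1
      have h6 : Real.exp (Real.log (nm v) * (1 / Real.log T)) ≤ 3 :=
        (Real.exp_le_exp.2 h5).trans (by linarith [Real.exp_one_lt_d9])
      have h7 := mul_le_mul_of_nonneg_left h6 (inv_nonneg.2 hv0.le)
      have h8 : 3 * (1 / (nm v : ℝ)) = (nm v : ℝ)⁻¹ * 3 := by ring
      rw [h8]
      exact h7
    have h8 := Real.add_one_le_exp (3 * (1 / (nm v : ℝ)))
    linarith
  have h9 : ∏ v ∈ gdY D T, (1 + (nm v : ℝ) ^ (-(1 - 1 / Real.log T))) ≤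
      ∏ v ∈ gdY D T, Real.exp (3 * (1 / (nm v : ℝ))) :=
    Finset.prod_le_prod (fun v _ => by positivity) h2
  refine h9.trans ?_
  rw [← Real.exp_sum, ← Finset.mul_sum]
  have h10 := h p ζ D T hT
  calc Real.exp (3 * ∑ v ∈ gdY D T, 1 / (nm v : ℝ))
      ≤ Real.exp (3 * (Real.log (Real.log T) + C)) := Real.exp_le_exp.2 (by linarith)
    _ = Real.exp (3 * C) * Real.log T ^ 3 := by
        rw [mul_add, Real.exp_add, mul_comm (Real.exp (3 * Real.log (Real.log T)))]
        congr 1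
        have : 3 * Real.log (Real.log T) = Real.log (Real.log T ^ 3) := by
          rw [Real.log_pow]
          norm_num
        rw [this, Real.exp_log (by positivity)]

private theorem cnt_pi {K : Type} [Field K] [NumberField K] {J : Type} [Fintype J] (S : Finset J)
    (s : J → Finset (Pl K)) (F : Finset (Finset (Pl K))) (f : Finset (Pl K) → ℝ) :
    ∑ g ∈ Fintype.piFinset (fun a => if a ∈ S then F else {s a}), ∏ a, f (g a) =
      (∑ n ∈ F, f n) ^ S.card * ∏ a ∈ Finset.univ.filter (fun a => a ∉ S), f (s a) := by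
  rw [← Finset.prod_univ_sum (fun a => if a ∈ S then F else {s a}) (fun _ n => f n)]
  rw [← Finset.prod_filter_mul_prod_filter_not Finset.univ (fun a => a ∈ S)]
  congr 1
  · have h1 : Finset.univ.filter (fun a => a ∈ S) = S := by
      ext a
      simp
    rw [h1]
    rw [← Finset.prod_const]
    refine Finset.prod_congr rfl fun a ha => ?_
    rw [if_pos ha]
  · refine Finset.prod_congr rfl fun a ha => ?_
    rw [if_neg (Finset.mem_filter.1 ha).2, Finset.sum_singleton]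

private theorem cnt_nr_empty {K : Type} [Field K] [NumberField K] : nr (∅ : Finset (Pl K)) = 1 := by
  unfold nr
  rw [Finset.prod_empty]

private theorem cnt_rpow_nonneg {K : Type} [Field K] [NumberField K] (n : Finset (Pl K)) (x : ℝ) :
    0 ≤ (nr n) ^ x := Real.rpow_nonneg (aks_nr_pos n).le x

/-- the case of at least one variable which is not smooth -/
private theorem cnt_pos {K : Type} [Field K] [NumberField K] {p : ℕ} {ζ : K} (D : RD0 K p ζ) {J : Type}
    [Fintype J] (C₂ : ℝ) (hC₂ : 0 < C₂)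
    (h₂ : ∀ (Lg : Finset J) (s : J → Finset (Pl K)) (Y X : ℝ), 1 ≤ X → 0 < Y → Y ≤ X →
      Lg.Nonempty → (((fam K X Lg Lg s).filter fun g => ∏ a, nr (g a) ≤ Y).card : ℝ) ≤
        C₂ * Y / sn Lg s * (1 + Real.log X) ^ (Lg.card - 1))
    (Y T : ℝ) (hY : 1 ≤ Y) (Js Lg : Finset J) (s : J → Finset (Pl K))
    (hne : (Lg \ Js).Nonempty) (B : ℝ)
    (hB : ∑ n ∈ (gdY D T).powerset, (nr n)⁻¹ ≤ B) :
    (((Fintype.piFinset (fun a => if a ∈ Lg then GF D Y else {s a})).filter fun g =>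
          (∀ a ∈ Js, Smo T (g a)) ∧ ∏ a, nr (g a) ≤ Y).card : ℝ) ≤
      C₂ * Y / sn Lg s * (1 + Real.log Y) ^ ((Lg \ Js).card - 1) * B ^ (Lg ∩ Js).card := by
  have hlog : 0 ≤ Real.log Y := Real.log_nonneg hY
  set R : Finset J := Lg \ Js with hR
  set S : Finset J := Lg ∩ Js with hS
  set s' : J → Finset (Pl K) := fun a => if a ∈ R then ∅ else s a with hs'
  set U := (Fintype.piFinset (fun a => if a ∈ Lg then GF D Y else {s a})).filter fun g =>
          (∀ a ∈ Js, Smo T (g a)) ∧ ∏ a, nr (g a) ≤ Y with hU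
  set V := Fintype.piFinset (fun a => if a ∈ S then (gdY D T).powerset else {s' a}) with hV
  have hmap : ∀ g ∈ U, (fun a => if a ∈ R then ∅ else g a) ∈ V := by
    intro g hg
    rw [hU, Finset.mem_filter, Fintype.mem_piFinset] at hg
    rw [hV, Fintype.mem_piFinset]
    intro a
    obtain ⟨h1, h2, -⟩ := hg
    have h3 := h1 a
    by_cases haL : a ∈ Lg
    · rw [if_pos haL] at h3
      by_cases haJ : a ∈ Js
      · have haS : a ∈ S := Finset.mem_inter.2 ⟨haL, haJ⟩
        have haR : a ∉ R := fun h => (Finset.mem_sdiff.1 h).2 haJ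
        rw [if_pos haS, if_neg haR]
        exact cnt_mem h3 (h2 a haJ)
      · have haS : a ∉ S := fun h => haJ (Finset.mem_inter.1 h).2
        have haR : a ∈ R := Finset.mem_sdiff.2 ⟨haL, haJ⟩
        rw [if_neg haS, if_pos haR, Finset.mem_singleton, hs']
        simp only [if_pos haR]
    · have haS : a ∉ S := fun h => haL (Finset.mem_inter.1 h).1
      have haR : a ∉ R := fun h => haL (Finset.mem_sdiff.1 h).1
      rw [if_neg haL, Finset.mem_singleton] at h3
      rw [if_neg haS, if_neg haR, Finset.mem_singleton, hs', h3]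
      simp only [if_neg haR]
  have hcard : (U.card : ℝ) = ∑ h ∈ V,
      ((U.filter fun g => (fun a => if a ∈ R then ∅ else g a) = h).card : ℝ) := by
    rw [← Nat.cast_sum]
    congr 1
    exact Finset.card_eq_sum_card_fiberwise hmap
  have hfib : ∀ h ∈ V, ((U.filter fun g => (fun a => if a ∈ R then ∅ else g a) = h).card : ℝ) ≤
      C₂ * Y * (1 + Real.log Y) ^ (R.card - 1) * ∏ a, (nr (h a))⁻¹ := by
    intro h hh
    have h1 : ((U.filter fun g => (fun a => if a ∈ R then ∅ else g a) = h).card : ℝ) ≤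
        (((fam K Y R R h).filter fun g => ∏ a, nr (g a) ≤ Y).card : ℝ) := by
      refine Nat.cast_le.2 (Finset.card_le_card ?_)
      intro g hg
      rw [Finset.mem_filter] at hg
      obtain ⟨hg1, hg2⟩ := hg
      rw [hU, Finset.mem_filter, Fintype.mem_piFinset] at hg1
      obtain ⟨h3, h4, h5⟩ := hg1
      rw [Finset.mem_filter]
      refine ⟨?_, h5⟩
      unfold fam
      rw [Fintype.mem_piFinset]
      intro a
      by_cases haR : a ∈ R
      · rw [if_pos haR]
        have h6 := h3 a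
        rw [if_pos (Finset.mem_sdiff.1 haR).1] at h6
        unfold GF at h6
        exact (Finset.mem_filter.1 h6).1
      · rw [if_neg haR, if_neg haR, Finset.mem_singleton, ← hg2]
        simp only [if_neg haR]
    have h2 := h₂ R h Y Y hY (by linarith) le_rfl hne
    refine (h1.trans h2).trans (le_of_eq ?_)
    have h3 : (sn R h)⁻¹ = ∏ a, (nr (h a))⁻¹ := by
      unfold sn
      rw [← Finset.prod_inv_distrib, Finset.prod_filter]
      refine Finset.prod_congr rfl fun a _ => ?_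
      by_cases haR : a ∈ R
      · rw [if_neg (not_not.2 haR)]
        have h4 := Fintype.mem_piFinset.1 hh a
        have haS : a ∉ S := fun h' => (Finset.mem_sdiff.1 haR).2 (Finset.mem_inter.1 h').2
        rw [if_neg haS, Finset.mem_singleton, hs'] at h4
        simp only [if_pos haR] at h4
        rw [h4, cnt_nr_empty, inv_one]
      · rw [if_pos haR]
    rw [← h3]
    ring
  rw [hcard]
  refine (Finset.sum_le_sum hfib).trans ?_
  rw [← Finset.mul_sum, hV, cnt_pi S s' (gdY D T).powerset (fun n => (nr n)⁻¹)]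
  have h4 : ∏ a ∈ Finset.univ.filter (fun a => a ∉ S), (nr (s' a))⁻¹ = (sn Lg s)⁻¹ := by
    unfold sn
    rw [← Finset.prod_inv_distrib, Finset.prod_filter, Finset.prod_filter]
    refine Finset.prod_congr rfl fun a _ => ?_
    by_cases haL : a ∈ Lg
    · rw [if_neg (not_not.2 haL)]
      by_cases haS : a ∈ S
      · rw [if_neg (not_not.2 haS)]
      · rw [if_pos haS]
        have haR : a ∈ R := Finset.mem_sdiff.2 ⟨haL, fun h => haS (Finset.mem_inter.2 ⟨haL, h⟩)⟩
        rw [hs']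
        simp only [if_pos haR]
        rw [cnt_nr_empty, inv_one]
    · have haS : a ∉ S := fun h => haL (Finset.mem_inter.1 h).1
      have haR : a ∉ R := fun h => haL (Finset.mem_sdiff.1 h).1
      rw [if_pos haL, if_pos haS, hs']
      simp only [if_neg haR]
  rw [h4]
  have h5 : 0 ≤ ∑ n ∈ (gdY D T).powerset, (nr n)⁻¹ :=
    Finset.sum_nonneg fun n _ => inv_nonneg.2 (aks_nr_pos n).le
  have h6 := pow_le_pow_left₀ h5 hB S.card
  have h7 : 0 < sn Lg s := aks_sn_pos Lg s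
  calc C₂ * Y * (1 + Real.log Y) ^ (R.card - 1) *
        ((∑ n ∈ (gdY D T).powerset, (nr n)⁻¹) ^ S.card * (sn Lg s)⁻¹)
      ≤ C₂ * Y * (1 + Real.log Y) ^ (R.card - 1) * (B ^ S.card * (sn Lg s)⁻¹) := by
        gcongr
    _ = _ := by ring

/-- the case where all large variables are smooth -/
private theorem cnt_all {K : Type} [Field K] [NumberField K] {p : ℕ} {ζ : K} (D : RD0 K p ζ) {J : Type}
    [Fintype J] (Y T : ℝ) (hY : 1 ≤ Y) (hT : 3 ≤ T) (Js Lg : Finset J) (s : J → Finset (Pl K))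
    (hsub : Lg ⊆ Js) (B : ℝ)
    (hB : ∑ n ∈ (gdY D T).powerset, (nr n) ^ (-(1 - 1 / Real.log T)) ≤ B) :
    (((Fintype.piFinset (fun a => if a ∈ Lg then GF D Y else {s a})).filter fun g =>
          (∀ a ∈ Js, Smo T (g a)) ∧ ∏ a, nr (g a) ≤ Y).card : ℝ) ≤
      (Y / sn Lg s) ^ (1 - 1 / Real.log T) * B ^ Lg.card := by
  have hY0 : 0 < Y := by linarith
  have hl1 : 1 ≤ Real.log T := by
    rw [Real.le_log_iff_exp_le (by linarith)]
    linarith [Real.exp_one_lt_d9]
  have hl0 : 0 < Real.log T := by linarith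
  obtain ⟨w, hw⟩ : ∃ w : ℝ, w = 1 - 1 / Real.log T := ⟨_, rfl⟩
  have hw0 : 0 ≤ w := by
    rw [hw, sub_nonneg, div_le_one hl0]
    exact hl1
  rw [← hw] at hB ⊢
  set U := (Fintype.piFinset (fun a => if a ∈ Lg then GF D Y else {s a})).filter fun g =>
          (∀ a ∈ Js, Smo T (g a)) ∧ ∏ a, nr (g a) ≤ Y with hU
  set V := Fintype.piFinset (fun a => if a ∈ Lg then (gdY D T).powerset else {s a}) with hV
  have hsubU : U ⊆ V := by
    intro g hg
    rw [hU, Finset.mem_filter, Fintype.mem_piFinset] at hg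
    rw [hV, Fintype.mem_piFinset]
    intro a
    obtain ⟨h1, h2, -⟩ := hg
    have h3 := h1 a
    by_cases haL : a ∈ Lg
    · rw [if_pos haL] at h3 ⊢
      exact cnt_mem h3 (h2 a (hsub haL))
    · rw [if_neg haL] at h3 ⊢
      exact h3
  have h1 : (U.card : ℝ) ≤ ∑ g ∈ V, Y ^ w * ∏ a, (nr (g a)) ^ (-w) := by
    have h2 : (U.card : ℝ) = ∑ g ∈ U, (1 : ℝ) := by
      rw [Finset.sum_const, nsmul_eq_mul, mul_one]
    rw [h2]
    refine (Finset.sum_le_sum ?_).trans (Finset.sum_le_sum_of_subset_of_nonneg hsubU ?_)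
    · intro g hg
      rw [hU, Finset.mem_filter] at hg
      have h3 : 0 < ∏ a, nr (g a) := Finset.prod_pos fun a _ => aks_nr_pos (g a)
      have h4 : ∏ a, (nr (g a)) ^ (-w) = (∏ a, nr (g a)) ^ (-w) :=
        Real.finsetProd_rpow _ _ (fun a _ => (aks_nr_pos (g a)).le) _
      rw [h4, Real.rpow_neg h3.le, ← div_eq_mul_inv, ← Real.div_rpow hY0.le h3.le]
      refine Real.one_le_rpow ?_ hw0
      rw [one_le_div h3]
      exact hg.2.2
    · intro g _ _
      exact mul_nonneg (Real.rpow_nonneg hY0.le _)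
        (Finset.prod_nonneg fun a _ => cnt_rpow_nonneg _ _)
  refine h1.trans ?_
  rw [← Finset.mul_sum, hV, cnt_pi Lg s (gdY D T).powerset (fun n => (nr n) ^ (-w))]
  have h5 : ∏ a ∈ Finset.univ.filter (fun a => a ∉ Lg), (nr (s a)) ^ (-w) =
      ((sn Lg s) ^ w)⁻¹ := by
    rw [Real.finsetProd_rpow _ _ (fun a _ => (aks_nr_pos (s a)).le)]
    rw [← Real.rpow_neg (aks_sn_pos Lg s).le]
    rfl
  rw [h5, Real.div_rpow hY0.le (aks_sn_pos Lg s).le]
  have h6 : 0 ≤ ∑ n ∈ (gdY D T).powerset, (nr n) ^ (-w) :=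
    Finset.sum_nonneg fun n _ => cnt_rpow_nonneg _ _
  have h7 := pow_le_pow_left₀ h6 hB Lg.card
  have h8 : 0 < sn Lg s ^ w := Real.rpow_pos_of_pos (aks_sn_pos Lg s) _
  calc Y ^ w * ((∑ n ∈ (gdY D T).powerset, (nr n) ^ (-w)) ^ Lg.card * (sn Lg s ^ w)⁻¹)
      ≤ Y ^ w * (B ^ Lg.card * (sn Lg s ^ w)⁻¹) := by gcongr
    _ = _ := by
        rw [div_eq_mul_inv]
        ring

private theorem cnt_ev (a : ℝ) : ∃ X₀ : ℝ, 3 ≤ X₀ ∧ ∀ Y : ℝ, X₀ ≤ Y →
    1 ≤ Real.log Y ∧ Real.log Y ^ a ≤ Y ^ ((1 : ℝ) / 2) := by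
  have h := (isLittleO_log_rpow_rpow_atTop a (by norm_num : (0 : ℝ) < 1 / 2)).bound
    (show (0 : ℝ) < 1 by norm_num)
  obtain ⟨X₁, hX₁⟩ := Filter.eventually_atTop.1 h
  refine ⟨max 3 X₁, le_max_left _ _, fun Y hY => ?_⟩
  have hY3 : 3 ≤ Y := (le_max_left _ _).trans hY
  have hl1 : 1 ≤ Real.log Y := by
    rw [Real.le_log_iff_exp_le (by linarith)]
    linarith [Real.exp_one_lt_d9]
  refine ⟨hl1, ?_⟩
  have h2 := hX₁ Y ((le_max_right _ _).trans hY)
  rw [Real.norm_eq_abs, Real.norm_eq_abs, abs_of_nonneg (Real.rpow_nonneg (by linarith) a),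
    abs_of_nonneg (Real.rpow_nonneg (by linarith) _), one_mul] at h2
  exact h2

private theorem cnt_sn {K : Type} [Field K] [NumberField K] {J : Type} [Fintype J] (Lg : Finset J)
    (s : J → Finset (Pl K)) (z : ℝ) (hz : 1 ≤ z) (h : ∀ l, l ∉ Lg → nr (s l) ≤ z) :
    sn Lg s ≤ z ^ Fintype.card J := by
  unfold sn
  calc ∏ a ∈ Finset.univ.filter (fun a => a ∉ Lg), nr (s a)
      ≤ ∏ _a ∈ Finset.univ.filter (fun a => a ∉ Lg), z :=
        Finset.prod_le_prod (fun a _ => (aks_nr_pos (s a)).le)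
          fun a ha => h a (Finset.mem_filter.1 ha).2
    _ = z ^ (Finset.univ.filter (fun a => a ∉ Lg)).card := Finset.prod_const z
    _ ≤ z ^ Fintype.card J := pow_le_pow_right₀ hz (Finset.card_le_univ _)

/-- Rankin's gain -/
private theorem cnt_gain (Y T X' : ℝ) (hY : 1 ≤ Real.log Y) (hT : 1 ≤ Real.log T) (hY0 : 0 < Y)
    (hTY : Real.log T ^ 2 ≤ Real.log Y) (hX' : Y ^ ((1 : ℝ) / 2) ≤ X') :
    X' ^ (1 - 1 / Real.log T) ≤ 8 * X' / Real.log Y := by
  have hT0 : 0 < Real.log T := by linarith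
  have hlY : 0 < Real.log Y := by linarith
  have hX0 : 0 < X' := lt_of_lt_of_le (Real.rpow_pos_of_pos hY0 _) hX'
  have h1 : 1 - 1 / Real.log T = 1 + -(1 / Real.log T) := by ring
  rw [h1, Real.rpow_add hX0, Real.rpow_one, Real.rpow_def_of_pos hX0]
  have h2 : Real.log Y / 2 ≤ Real.log X' := by
    have h3 := Real.log_le_log (Real.rpow_pos_of_pos hY0 _) hX'
    rw [Real.log_rpow hY0] at h3
    linarith
  obtain ⟨x, hx⟩ : ∃ x : ℝ, x = Real.sqrt (Real.log Y) := ⟨_, rfl⟩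
  have hx0 : 0 ≤ x := by rw [hx]; exact Real.sqrt_nonneg _
  have hx2 : x ^ 2 = Real.log Y := by rw [hx]; exact Real.sq_sqrt hlY.le
  have hTx : Real.log T ≤ x := by
    rw [hx]
    exact Real.le_sqrt_of_sq_le hTY
  have h3 : x / 2 ≤ Real.log X' * (1 / Real.log T) := by
    rw [mul_one_div, le_div_iff₀ hT0]
    nlinarith
  have h4 : Real.exp (Real.log X' * -(1 / Real.log T)) ≤ 8 / Real.log Y := by
    rw [le_div_iff₀ hlY, mul_neg, Real.exp_neg, inv_mul_le_iff₀ (Real.exp_pos _)]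
    have h5 : Real.exp (x / 2) ≤ Real.exp (Real.log X' * (1 / Real.log T)) := Real.exp_le_exp.2 h3
    have h6 := Real.quadratic_le_exp_of_nonneg (by positivity : 0 ≤ x / 2)
    nlinarith
  calc X' * Real.exp (Real.log X' * -(1 / Real.log T)) ≤ X' * (8 / Real.log Y) := by gcongr
    _ = _ := by ring

theorem smo_cnt {K : Type} [Field K] [NumberField K] {p : ℕ} {ζ : K} (D : RD0 K p ζ) {J : Type}
    [Fintype J] (N : ℕ) (hN : 1 ≤ N) (B₂ : ℕ) :
    ∃ (C X₀ : ℝ) (A : ℕ), 0 < C ∧ 3 ≤ X₀ ∧ ∀ Y : ℝ, X₀ ≤ Y → ∀ T : ℝ, 3 ≤ T →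
      Real.log T ^ 2 ≤ Real.log Y → ∀ z₁ : ℝ, 1 ≤ z₁ → z₁ ≤ Real.log Y ^ B₂ →
      ∀ (Js Lg : Finset J) (s : J → Finset (Pl K)), (∀ l ∈ Lg, s l = ∅) →
        (∀ l, l ∉ Lg → (∀ v ∈ s l, D.Gd v) ∧ nr (s l) ≤ z₁) → (Lg \ Js).card ≤ N - 1 →
        (((Fintype.piFinset (fun a => if a ∈ Lg then GF D Y else {s a})).filter fun g =>
          (∀ a ∈ Js, Smo T (g a)) ∧ ∏ a, nr (g a) ≤ Y).card : ℝ) ≤
          C * Y / sn Lg s * (1 + Real.log Y) ^ (N - 1) / Real.log Y * Real.log T ^ A + 1 := by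
  obtain ⟨C₁, hC₁, h₁⟩ := smo_inv K
  obtain ⟨C₂, hC₂, h₂⟩ := tn_le_one K (J := J)
  obtain ⟨X₀, hX₀, hev⟩ := cnt_ev ((B₂ * Fintype.card J : ℕ) : ℝ)
  refine ⟨(C₂ + 8) * C₁ ^ Fintype.card J, X₀, 3 * Fintype.card J, by positivity, hX₀, ?_⟩
  intro Y hY T hT hTY z₁ hz1 hz2 Js Lg s _ hs hcard
  obtain ⟨hlY, hYp⟩ := hev Y hY
  have hY3 : 3 ≤ Y := hX₀.trans hY
  have hY1 : 1 ≤ Y := by linarith
  have hY0 : 0 < Y := by linarith
  have hlT : 1 ≤ Real.log T := by
    rw [Real.le_log_iff_exp_le (by linarith)]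
    linarith [Real.exp_one_lt_d9]
  have hsn : 0 < sn Lg s := aks_sn_pos Lg s
  have hY' : 0 ≤ Y / sn Lg s := by positivity
  have hlY0 : 0 < Real.log Y := by linarith
  have hB1 : 1 ≤ C₁ * Real.log T ^ 3 := one_le_mul_of_one_le_of_one_le hC₁ (one_le_pow₀ hlT)
  have hpow : ∀ k : ℕ, k ≤ Fintype.card J →
      (C₁ * Real.log T ^ 3) ^ k ≤ C₁ ^ Fintype.card J * Real.log T ^ (3 * Fintype.card J) := by
    intro k hk
    refine (pow_le_pow_right₀ hB1 hk).trans (le_of_eq ?_)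
    rw [mul_pow, ← pow_mul]
  have hpos : 0 ≤ (C₂ + 8) * C₁ ^ Fintype.card J * Y / sn Lg s * (1 + Real.log Y) ^ (N - 1) /
      Real.log Y * Real.log T ^ (3 * Fintype.card J) := by positivity
  by_cases hR : (Lg \ Js).Nonempty
  · have h3 : ∑ n ∈ (gdY D T).powerset, (nr n)⁻¹ ≤ C₁ * Real.log T ^ 3 := by
      refine le_trans (Finset.sum_le_sum fun n _ => ?_) (h₁ p ζ D T hT)
      rw [← Real.rpow_neg_one]
      refine Real.rpow_le_rpow_of_exponent_le (one_le_nr n) ?_
      have : 0 < 1 / Real.log T := by positivity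
      linarith
    have h4 := cnt_pos D C₂ hC₂ h₂ Y T hY1 Js Lg s hR _ h3
    have hr1 : 1 ≤ (Lg \ Js).card := Finset.card_pos.2 hR
    have h5 : (1 + Real.log Y) ^ ((Lg \ Js).card - 1) ≤ (1 + Real.log Y) ^ (N - 1) / Real.log Y := by
      rw [le_div_iff₀ hlY0]
      have h6 : (1 + Real.log Y) ^ ((Lg \ Js).card - 1) * Real.log Y ≤
          (1 + Real.log Y) ^ ((Lg \ Js).card - 1) * (1 + Real.log Y) := by
        gcongr
        linarith
      refine h6.trans ?_
      rw [← pow_succ]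
      exact pow_le_pow_right₀ (by linarith) (by omega)
    have h7 := hpow (Lg ∩ Js).card (Finset.card_le_univ _)
    refine h4.trans (le_trans ?_ (le_add_of_nonneg_right zero_le_one))
    calc C₂ * Y / sn Lg s * (1 + Real.log Y) ^ ((Lg \ Js).card - 1) *
          (C₁ * Real.log T ^ 3) ^ (Lg ∩ Js).card
        ≤ C₂ * Y / sn Lg s * ((1 + Real.log Y) ^ (N - 1) / Real.log Y) *
          (C₁ ^ Fintype.card J * Real.log T ^ (3 * Fintype.card J)) := by
          gcongr
      _ ≤ (C₂ + 8) * Y / sn Lg s * ((1 + Real.log Y) ^ (N - 1) / Real.log Y) *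
          (C₁ ^ Fintype.card J * Real.log T ^ (3 * Fintype.card J)) := by
          gcongr
          linarith
      _ = _ := by ring
  · have hsub : Lg ⊆ Js := by
      rw [Finset.not_nonempty_iff_eq_empty] at hR
      exact Finset.sdiff_eq_empty_iff_subset.1 hR
    have h3 := cnt_all D Y T hY1 hT Js Lg s hsub _ (h₁ p ζ D T hT)
    have h4 : sn Lg s ≤ Y ^ ((1 : ℝ) / 2) := by
      refine (cnt_sn Lg s z₁ hz1 fun l hl => (hs l hl).2).trans ?_
      refine le_trans ?_ hYp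
      rw [Real.rpow_natCast, pow_mul]
      exact pow_le_pow_left₀ (by linarith) hz2 _
    have h5 : Y ^ ((1 : ℝ) / 2) ≤ Y / sn Lg s := by
      rw [le_div_iff₀ hsn]
      have h6 : Y = Y ^ ((1 : ℝ) / 2) * Y ^ ((1 : ℝ) / 2) := by
        rw [← Real.rpow_add hY0]
        norm_num
      nth_rewrite 2 [h6]
      have h7 : 0 ≤ Y ^ ((1 : ℝ) / 2) := by positivity
      exact mul_le_mul_of_nonneg_left h4 h7
    have h6 := cnt_gain Y T (Y / sn Lg s) hlY hlT hY0 hTY h5
    have h7 := hpow Lg.card (Finset.card_le_univ _)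
    refine h3.trans (le_trans ?_ (le_add_of_nonneg_right zero_le_one))
    have h8 : (1 : ℝ) ≤ (1 + Real.log Y) ^ (N - 1) := one_le_pow₀ (by linarith)
    calc (Y / sn Lg s) ^ (1 - 1 / Real.log T) * (C₁ * Real.log T ^ 3) ^ Lg.card
        ≤ (8 * (Y / sn Lg s) / Real.log Y) *
          (C₁ ^ Fintype.card J * Real.log T ^ (3 * Fintype.card J)) := by
          gcongr
      _ ≤ ((C₂ + 8) * (Y / sn Lg s) / Real.log Y) *
          (C₁ ^ Fintype.card J * Real.log T ^ (3 * Fintype.card J)) := by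
          gcongr
          linarith
      _ = ((C₂ + 8) * (Y / sn Lg s) / Real.log Y) *
          (C₁ ^ Fintype.card J * Real.log T ^ (3 * Fintype.card J)) * 1 := by rw [mul_one]
      _ ≤ ((C₂ + 8) * (Y / sn Lg s) / Real.log Y) *
          (C₁ ^ Fintype.card J * Real.log T ^ (3 * Fintype.card J)) *
          (1 + Real.log Y) ^ (N - 1) := by
          gcongr
      _ = _ := by ring

end H57.LS
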