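import Pool.Agent.H57.LS.Def
import Pool.Agent.H63.MB.BKB

/-!
# [H57 LS KPB] a large variable linked with a small one, with weights, 550-650 lines (copy). File Pool/Agent/H57/LS/Kpb.lean

`kpb3` is `H63.MA.kpb2` (Pool/Agent/H63/MB/BKB.lean) with weights `κ a (g a)`, `|κ| ≤ 1`, where the large variable `a` which is linked with a small variable or with `E` has weight `κ a = 1`.
COPY the file BKB.lean (`bkb_core`, `bkb_outer`, `bkb_phase`, `kpb2`) and insert the weights: the sum over the variable `a` is unchanged; all other variables are outer variables, their weights are constants of absolute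
value at most `1` in the inner sum over `a` (the outer sum is estimated by absolute values).
-/

set_option autoImplicit false

open scoped NumberField
open IsDedekindDomain
open scoped Classical

noncomputable section

namespace H57.LS

open H63.MA H38.BB

/-- the phase in one variable if all large variables are unlinked -/
theorem kpb_phase {K : Type} [Field K] [NumberField K] {p : ℕ} {ζ : K} {m : ℕ} {J : Type}
    [Fintype J] (hp : p.Prime) (hζ : IsPrimitiveRoot ζ p) (D : RD K p ζ) (P : PD p m J)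
    (b : Fin m → Kˣ) (E : Finset (Pl K)) (η : Pl K → Fin m → ZMod p) (hb : BS2 D.toRD0 b E)
    (Lg : Finset J) (s : J → Finset (Pl K))
    (wt : J → Finset (Pl K) → ℂ) (hwt : ∀ a n, ‖wt a n‖ ≤ 1)
    (h : (J → Fin D.r → ZMod p) → ℂ) (hh : ∀ q, ‖h q‖ ≤ 1)
    (hlk : ∀ a ∈ Lg, ∀ a' ∈ Lg, P.lk a a' = 0) (a : J) (ha : a ∈ Lg)
    (hwa : ∀ n, wt a n = 1)
    (hne : (∃ l, l ∉ Lg ∧ s l ≠ ∅ ∧ P.lk a l ≠ 0) ∨
      ∃ w ∈ E, mu2 D P b η a w ≠ 0)
    (g : J → Finset (Pl K)) (hgs : ∀ l, l ∉ Lg → g l = s l) :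
    BkbPhase D E Lg s a
      (fun g => (∏ l, wt l (g l)) *
        (h (fun l => qf D.toRD0 (g l)) * ep p (ph2 D.toRD0 P b E η g))) g := by
  intro hadm
  obtain ⟨c, κ, hph⟩ := ph_one2 hp hζ D P b E η hb g hadm a
  obtain ⟨nL, hnL⟩ : ∃ nL : Finset J, nL = Finset.univ.filter (fun l => l ∉ Lg) := ⟨_, rfl⟩
  have hmL : ∀ l, l ∈ nL ↔ l ∉ Lg := by
    intro l
    rw [hnL, Finset.mem_filter]
    exact ⟨fun h => h.2, fun h => ⟨Finset.mem_univ _, h⟩⟩
  obtain ⟨E', hE'⟩ : ∃ E' : Finset (Pl K), E' = E ∪ nL.biUnion s := ⟨_, rfl⟩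
  obtain ⟨μ, hμ⟩ : ∃ μ : Pl K → ZMod p, ∀ w, μ w =
      (if w ∈ E then mu2 D P b η a w else 0) +
        ∑ l ∈ nL, (if w ∈ s l then P.lk a l else 0) := ⟨_, fun _ => rfl⟩
  have hEE' : E ⊆ E' := by
    rw [hE']
    exact Finset.subset_union_left
  have hsE' : ∀ l, l ∉ Lg → s l ⊆ E' := by
    intro l hl
    rw [hE']
    exact (Finset.subset_biUnion_of_mem s ((hmL l).2 hl)).trans Finset.subset_union_right
  -- the phase
  have hfE : ∀ v, ∑ w ∈ E, mu2 D P b η a w * D.LL w (D.pi v) +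
      ∑ l ∈ Finset.univ.erase a, P.lk a l * ∑ w ∈ g l, D.LL w (D.pi v) + dt κ (D.q v) =
      fE D.toRD0 E' μ κ v := by
    intro v
    unfold fE
    congr 1
    have e1 : ∑ w ∈ E', μ w * D.LL w (D.pi v) =
        ∑ w ∈ E', (if w ∈ E then mu2 D P b η a w * D.LL w (D.pi v) else 0) +
        ∑ w ∈ E', ∑ l ∈ nL, (if w ∈ s l then P.lk a l * D.LL w (D.pi v) else 0) := by
      rw [← Finset.sum_add_distrib]
      apply Finset.sum_congr rfl
      intro w _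
      rw [hμ, add_mul, Finset.sum_mul, ite_mul, zero_mul]
      congr 1
      apply Finset.sum_congr rfl
      intro l _
      rw [ite_mul, zero_mul]
    have e2 : ∑ w ∈ E', (if w ∈ E then mu2 D P b η a w * D.LL w (D.pi v) else 0) =
        ∑ w ∈ E, mu2 D P b η a w * D.LL w (D.pi v) := by
      rw [Finset.sum_ite_mem, Finset.inter_eq_right.2 hEE']
    have e3 : ∑ w ∈ E', ∑ l ∈ nL, (if w ∈ s l then P.lk a l * D.LL w (D.pi v) else 0) =
        ∑ l ∈ nL, P.lk a l * ∑ w ∈ g l, D.LL w (D.pi v) := by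
      rw [Finset.sum_comm]
      apply Finset.sum_congr rfl
      intro l hl
      have hl' := (hmL l).1 hl
      rw [Finset.sum_ite_mem, Finset.inter_eq_right.2 (hsE' l hl'), Finset.mul_sum, hgs l hl']
    have e4 : ∑ l ∈ Finset.univ.erase a, P.lk a l * ∑ w ∈ g l, D.LL w (D.pi v) =
        ∑ l ∈ nL, P.lk a l * ∑ w ∈ g l, D.LL w (D.pi v) := by
      symm
      apply Finset.sum_subset
      · intro l hl
        have hl' := (hmL l).1 hl
        rw [Finset.mem_erase]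
        refine ⟨?_, Finset.mem_univ l⟩
        rintro rfl
        exact hl' ha
      · intro l _ hl
        have hl' : l ∈ Lg := by
          by_contra hc
          exact hl ((hmL l).2 hc)
        rw [hlk a ha l hl', zero_mul]
    change ∑ w ∈ E, mu2 D P b η a w * D.LL w (D.pi v) +
      ∑ l ∈ Finset.univ.erase a, P.lk a l * ∑ w ∈ g l, D.LL w (D.pi v) =
      ∑ w ∈ E', μ w * D.LL w (D.pi v)
    rw [e1, e2, e3, e4]
  have hμ0 : ∃ w ∈ E', μ w ≠ 0 := by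
    rcases hne with ⟨l₀, hl₀, hsl, hal⟩ | ⟨w, hw, hwne⟩
    · obtain ⟨w, hw⟩ := Finset.nonempty_iff_ne_empty.2 hsl
      refine ⟨w, hsE' l₀ hl₀ hw, ?_⟩
      have hwE : w ∉ E := by
        intro hwE
        have hd := hadm.2 l₀
        rw [hgs l₀ hl₀] at hd
        exact Finset.disjoint_left.1 hd hw hwE
      rw [hμ, if_neg hwE, zero_add, Finset.sum_eq_single l₀]
      · rw [if_pos hw]
        exact hal
      · intro l hl hll
        rw [if_neg]
        intro hw'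
        have hd := hadm.1.2 l l₀ hll
        rw [hgs l ((hmL l).1 hl), hgs l₀ hl₀] at hd
        exact Finset.disjoint_left.1 hd hw' hw
      · intro hl
        exact absurd ((hmL l₀).2 hl₀) hl
    · refine ⟨w, hEE' hw, ?_⟩
      rw [hμ, if_pos hw, Finset.sum_eq_zero, add_zero]
      · exact hwne
      · intro l hl
        rw [if_neg]
        intro hw'
        have hd := hadm.2 l
        rw [hgs l ((hmL l).1 hl)] at hd
        exact Finset.disjoint_left.1 hd hw' hw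
  obtain ⟨W, hW⟩ : ∃ W : ℂ, W = ∏ l ∈ Finset.univ.erase a, wt l (g l) := ⟨_, rfl⟩
  have hWn : ‖W‖ ≤ 1 := by
    rw [hW, norm_prod]
    exact Finset.prod_le_one (fun l _ => norm_nonneg _) fun l _ => hwt l _
  have hWu : ∀ n, ∏ l, wt l (Function.update g a n l) = W := by
    intro n
    rw [← Finset.mul_prod_erase Finset.univ _ (Finset.mem_univ a), Function.update_self, hwa,
      one_mul, hW]
    apply Finset.prod_congr rfl
    intro l hl
    rw [Function.update_of_ne (Finset.ne_of_mem_erase hl)]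
  obtain ⟨H, hH⟩ : ∃ H : (Fin D.r → ZMod p) → ℂ, ∀ q, H q =
      W * h (Function.update (fun l => qf D.toRD0 (g l)) a q) := ⟨_, fun _ => rfl⟩
  have hHn : ∀ q, ‖H q‖ ≤ 1 := by
    intro q
    rw [hH, norm_mul]
    exact mul_le_one₀ hWn (norm_nonneg _) (hh _)
  have hakE : akbE E Lg s = E' := by
    rw [hE', hnL]
    rfl
  rw [hakE]
  refine ⟨μ, κ, H, c, hHn, Or.inl hμ0, ?_⟩
  intro n hadm'
  have e1 : (fun l => qf D.toRD0 (Function.update g a n l)) =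
      Function.update (fun l => qf D.toRD0 (g l)) a (qf D.toRD0 n) := by
    funext l
    by_cases hl : l = a
    · rw [hl, Function.update_self, Function.update_self]
    · rw [Function.update_of_ne hl, Function.update_of_ne hl]
  have e2 : ∑ v ∈ n, (∑ w ∈ E, mu2 D P b η a w * D.LL w (D.pi v) +
      ∑ l ∈ Finset.univ.erase a, P.lk a l * ∑ w ∈ g l, D.LL w (D.pi v) + dt κ (D.q v)) =
      ∑ v ∈ n, fE D.toRD0 E' μ κ v := Finset.sum_congr rfl fun v _ => hfE v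
  change (∏ l, wt l (Function.update g a n l)) *
    (h (fun l => qf D.toRD0 (Function.update g a n l)) *
      ep p (ph2 D.toRD0 P b E η (Function.update g a n))) = _
  rw [hph n hadm', e2, ep_add hp, hH, e1, hWu]
  ring

theorem kpb3 {K : Type} [Field K] [NumberField K] {p : ℕ} {ζ : K} {m t : ℕ} {J : Type}
    [Fintype J] (hp : p.Prime) (hζ : IsPrimitiveRoot ζ p) (D : RD K p ζ) (P : PD p m J)
    (blk : J → Fin t) (A : ℝ) :
    ∃ (B₁ : ℕ) (X₀ : ℝ), 3 ≤ X₀ ∧ ∀ (X z₁ z₂ : ℝ), X₀ ≤ X → 1 ≤ z₁ → z₁ ^ B₁ ≤ z₂ →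
      Real.log X ^ B₁ ≤ z₂ → ∀ (Y : Fin t → ℝ), (∀ i, 0 < Y i ∧ Y i ≤ X) →
      ∀ (b : Fin m → Kˣ) (E : Finset (Pl K)) (η : Pl K → Fin m → ZMod p),
      BS2 D.toRD0 b E → nr E ≤ z₁ → ∀ (Lg : Finset J) (s : J → Finset (Pl K)),
        (∀ l, l ∉ Lg → (∀ v ∈ s l, D.Gd v) ∧ nr (s l) ≤ z₁) →
      ∀ κ : J → Finset (Pl K) → ℂ, (∀ a n, ‖κ a n‖ ≤ 1) →
      ∀ h : (J → Fin D.r → ZMod p) → ℂ, (∀ q, ‖h q‖ ≤ 1) →
        (∀ a ∈ Lg, ∀ a' ∈ Lg, P.lk a a' = 0) →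
        ((∃ a ∈ Lg, (∀ n, κ a n = 1) ∧ ∃ l, l ∉ Lg ∧ s l ≠ ∅ ∧ P.lk a l ≠ 0) ∨
          ∃ a ∈ Lg, (∀ n, κ a n = 1) ∧ ∃ w ∈ E, mu2 D P b η a w ≠ 0) →
        ‖TT3 D.toRD0 P b E η blk Y X Lg z₂ s κ h‖ ≤
          (∏ i, Y i) / sn Lg s * Real.log X ^ (-A) := by
  obtain ⟨C₁, A₁, δ, hC₁, hA₁, hδ, hδ1, hlem⟩ := lemA hp hζ D
  obtain ⟨C₂, A₂, hC₂, hA₂, hks⟩ := ks K blk
  obtain ⟨B₁, X₀, hX₀, hnum⟩ := akb_num (2 * C₁ * C₂) (((Fintype.card J : ℝ) + 1) * (A₁ + 1))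
    A₂ δ A (by positivity) (by positivity) hA₂ hδ
  refine ⟨B₁, X₀, hX₀, ?_⟩
  intro X z₁ z₂ hX hz₁ h1 h2 Y hY b E η hb hE Lg s hs κ hκ h hh hlk hex
  obtain ⟨a, ha, hκa, hl₀⟩ : ∃ a ∈ Lg, (∀ n, κ a n = 1) ∧
      ((∃ l, l ∉ Lg ∧ s l ≠ ∅ ∧ P.lk a l ≠ 0) ∨ ∃ w ∈ E, mu2 D P b η a w ≠ 0) := by
    rcases hex with ⟨a, ha, h1', h'⟩ | ⟨a, ha, h1', h'⟩
    · exact ⟨a, ha, h1', Or.inl h'⟩
    · exact ⟨a, ha, h1', Or.inr h'⟩
  have hz₂ : 1 ≤ z₂ := (one_le_pow₀ hz₁).trans h1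
  have hsn : 0 < sn Lg s := by
    unfold sn
    exact Finset.prod_pos fun l _ => akb_nr_pos _
  have hPY : 0 < ∏ i, Y i := Finset.prod_pos fun i _ => (hY i).1
  refine (bkb_outer D blk C₁ A₁ δ hC₁ hA₁ hδ hδ1 hlem C₂ A₂ hks X z₁ z₂ (by linarith) hz₁ hz₂ Y
    hY E hb.1 hE Lg s hs (fun g => (∏ l, κ l (g l)) *
      (h (fun l => qf D.toRD0 (g l)) * ep p (ph2 D.toRD0 P b E η g)))
    a ha fun g hgs => kpb_phase hp hζ D P b E η hb Lg s κ hκ h hh hlk a ha hκa hl₀ g hgs).trans ?_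
  exact mul_le_mul_of_nonneg_left (hnum X z₁ z₂ hX hz₁ h1 h2) (div_nonneg hPY.le hsn.le)

end H57.LS
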