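import Pool.Agent.H57.LS.Kpa
import Pool.Agent.H57.LS.Kpb
import Pool.Agent.H57.LS.Abl
import Pool.Agent.H57.LS.Cnt
import Pool.Agent.H38.BB.CSel

/-!
# [H57 LS BLS] the level one sum with a smooth class, 200-300 lines. File Pool/Agent/H57/LS/Bls.lean

`c : CR p m N`, `j` a class, `T` with `(log T)^2 ≤ log Y`. The sum of `wtR c f F_1` over the spanning families `f` whose component `f j` is `T`-smooth is `≤ C Y (log Y)^(N - 1) (log Y)^(-1/2) (log T)^A`.

Proof (compare `blk` in Pool/Agent/H38/BB/CBlk.lean; here `b = 1`, `E = ∅`).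
(1) `csel_wt`/`rx_char`, `rx_inner` (or `csel_inner`) with `S = univ` and `psi_ex`: the sum is `∑ g ∈ piFinset (GF D Y) over J = c.J, if ∏ nr (g a) ≤ Y then Ψ g else 0`, `Ψ g = if Dj g then (∏ a, κ a (g a)) * (if SpA c 1 (sup g) then 1 else 0) * ep (ph D c.pd 1 g) else 0`
with `κ a n = if a.1 = j then (if Smo T n then 1 else 0) else 1` (`f = unR c g`; `f j` is smooth iff all `g a`, `a.1 = j`, are; `SpR c 1 (unR c g) ↔ SpA c 1 (sup g)` is `sl_sp`; `rx_nr`).
(2) `ablk3` with `B₁` the maximum of the constants of `kpa3`, `kpb3` (`A = 1`, `t = 1`, `blk = 0`, `P = c.pd`) and `A = 0`, `M = C Y (1 + log Y)^(N - 1) / log Y * (log T)^A`. Block `(Lg, s)`: the families in the block have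
`sup g = S := Lg ∪ {l ∉ Lg | s l ≠ ∅}` (`z₂ ≥ 1`), so the block sum is `(if SpA c 1 S then 1 else 0) * TT3 ..` (as `cblk_inner`; `ph2 .. ∅ 0 = ph`: `cblk_ph2`). If `SpA c 1 S` fails it is `0`. Otherwise:
 (i) two linked types in `Lg`: `kpa3`, the block sum is `≤ Y / sn / log Y`.
 (ii) otherwise, if some `a ∈ Lg` with `a.1 ≠ j` is linked with some `l ∉ Lg`, `s l ≠ ∅`: `kpb3` (`κ a = 1`).
 (iii) otherwise all `a ∈ Lg` with `a.1 ≠ j` are unlinked with all types of `S`. Two different such types `a ≠ a'` of the same class: `δ = θ_a - θ_a' ≠ 0` is orthogonal to `x_l` for all `l ∈ S` (`cblk_lk`), which contradicts `SpA c 1 S`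
 (`bp 1 δ = 1` is a `p`-th power). So `Lg` has at most `N - 1` types of class `≠ j`: `smo_cnt` for `Js = {a | a.1 = j}` (the terms with `κ = 0` vanish, the others have absolute value `≤ 1`).
(3) The result of `ablk3` is `C (M (log Y)^(1/2) + √Y)`, and `√Y ≤ Y (log Y)^(-1/2)`, `1 + log Y ≤ 2 log Y`.
-/

set_option autoImplicit false

open scoped NumberField
open IsDedekindDomain
open scoped Classical

noncomputable section

namespace H57.LS

open H63.MA H38.BB

/-- the weights -/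
def blsK {p m N : ℕ} {K : Type} [Field K] [NumberField K] (c : CR p m N) (j : Fin N) (T : ℝ)
    (a : c.J) (n : Finset (Pl K)) : ℂ := if a.1 = j then (if Smo T n then 1 else 0) else 1

theorem blsK_norm {p m N : ℕ} {K : Type} [Field K] [NumberField K] (c : CR p m N) (j : Fin N)
    (T : ℝ) (a : c.J) (n : Finset (Pl K)) : ‖blsK c j T a n‖ ≤ 1 := by
  unfold blsK
  split_ifs <;> simp

theorem bls_prod {p m N : ℕ} [NeZero p] {K : Type} [Field K] [NumberField K] (c : CR p m N)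
    (j : Fin N) (T : ℝ) (g : c.J → Finset (Pl K)) :
    ∏ a, blsK c j T a (g a) = if Smo T (unR c g j) then 1 else 0 := by
  by_cases h : Smo T (unR c g j)
  · rw [if_pos h]
    refine Finset.prod_eq_one fun a _ => ?_
    unfold blsK
    by_cases h1 : a.1 = j
    · rw [if_pos h1, if_pos]
      intro v hv
      exact h v (rx_mem.2 ⟨a, h1, hv⟩)
    · rw [if_neg h1]
  · rw [if_neg h]
    unfold Smo at h
    push Not at h
    obtain ⟨v, hv, hvT⟩ := h
    obtain ⟨a, ha, hva⟩ := rx_mem.1 hv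
    refine Finset.prod_eq_zero (Finset.mem_univ a) ?_
    unfold blsK
    rw [if_pos ha, if_neg]
    intro h2
    exact absurd (h2 v hva) (not_le.2 hvT)

theorem bls_prod_norm {p m N : ℕ} [NeZero p] {K : Type} [Field K] [NumberField K] (c : CR p m N)
    (j : Fin N) (T : ℝ) (g : c.J → Finset (Pl K)) : ‖∏ a, blsK c j T a (g a)‖ ≤ 1 := by
  rw [bls_prod]
  split_ifs <;> simp

/-- the summands over the refined families -/
def blsP {K : Type} [Field K] [NumberField K] {p : ℕ} {ζ : K} {m N : ℕ} [NeZero p]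
    (D : RD K p ζ) (c : CR p m N) (j : Fin N) (T : ℝ) (g : c.J → Finset (Pl K)) : ℂ :=
  (∏ a, blsK c j T a (g a)) * (if SpA c (fun _ => (1 : Kˣ)) (sup g) then 1 else 0) *
    ep p (ph D.toRD0 c.pd (fun _ => 1) g)

theorem blsP_norm {K : Type} [Field K] [NumberField K] {p : ℕ} {ζ : K} {m N : ℕ} [NeZero p]
    (D : RD K p ζ) (c : CR p m N) (j : Fin N) (T : ℝ) (g : c.J → Finset (Pl K)) :
    ‖blsP D c j T g‖ ≤ 1 := by
  unfold blsP
  rw [norm_mul, norm_mul, ep_norm, mul_one]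
  refine mul_le_one₀ (bls_prod_norm c j T g) (norm_nonneg _) ?_
  split_ifs <;> simp

/-- the sum over the families as a sum over the refined families -/
theorem bls_ex {K : Type} [Field K] [NumberField K] {p : ℕ} {ζ : K} {m N : ℕ} [NeZero p]
    (hp : p.Prime) (hζ : IsPrimitiveRoot ζ p) (D : RD K p ζ) (c : CR p m N) (j : Fin N)
    (Y T : ℝ) :
    (((∑ f ∈ Fintype.piFinset (fun _ : Fin N => GF D.toRD0 Y),
        if Dj f ∧ ∏ i, nr (f i) ≤ Y ∧ SpR c (fun _ => (1 : Kˣ)) f ∧ Smo T (f j) then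
          wtR c f (fun v k => D.LL v (akR D.toRD0 c (fun _ => 1) f k)) else 0 : ℝ)) : ℂ) =
      ∑ g ∈ Fintype.piFinset (fun _ : c.J => GF D.toRD0 Y),
        if ∏ a, nr (g a) ≤ Y then (if Dj g then blsP D c j T g else 0) else 0 := by
  rw [← psi_ex D.toRD0 c (fun g => blsP D c j T g) Y, Complex.ofReal_sum]
  refine Finset.sum_congr rfl fun f hf => ?_
  rw [Fintype.mem_piFinset] at hf
  by_cases h1 : Dj f ∧ ∏ i, nr (f i) ≤ Y
  · rw [if_pos h1]
    have hset : (Fintype.piFinset (fun _ : c.J => GF D.toRD0 Y)).filter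
        (fun g => Dj g ∧ unR c g = f ∧ sup g ⊆ Finset.univ) =
        (Fintype.piFinset (fun _ : c.J => GF D.toRD0 Y)).filter
          (fun g => Dj g ∧ unR c g = f) := by
      refine Finset.filter_congr fun g _ => ?_
      constructor
      · rintro ⟨h2, h3, -⟩
        exact ⟨h2, h3⟩
      · rintro ⟨h2, h3⟩
        exact ⟨h2, h3, Finset.subset_univ _⟩
    rw [hset]
    have hval : ∀ g ∈ (Fintype.piFinset (fun _ : c.J => GF D.toRD0 Y)).filter
          (fun g => Dj g ∧ unR c g = f), blsP D c j T g =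
        (if SpR c (fun _ => (1 : Kˣ)) f ∧ Smo T (f j) then 1 else 0) *
          ((if sup g ⊆ Finset.univ then 1 else 0) * ep p (ph D.toRD0 c.pd (fun _ => 1) g)) := by
      intro g hg
      obtain ⟨-, -, hgf⟩ := Finset.mem_filter.1 hg
      unfold blsP
      rw [bls_prod, hgf, if_pos (Finset.subset_univ _), one_mul]
      have h4 : SpA c (fun _ => (1 : Kˣ)) (sup g) ↔ SpR c (fun _ => (1 : Kˣ)) f := by
        rw [← hgf]
        exact (sl_sp c _ g).symm
      by_cases h5 : SpR c (fun _ => (1 : Kˣ)) f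
      · by_cases h6 : Smo T (f j)
        · rw [if_pos h6, if_pos (h4.2 h5), if_pos ⟨h5, h6⟩, mul_one]
        · have h7 : ¬ (SpR c (fun _ => (1 : Kˣ)) f ∧ Smo T (f j)) := fun h => h6 h.2
          rw [if_neg h6, if_neg h7, zero_mul]
      · have h7 : ¬ (SpR c (fun _ => (1 : Kˣ)) f ∧ Smo T (f j)) := fun h => h5 h.1
        have h8 : ¬ SpA c (fun _ => (1 : Kˣ)) (sup g) := fun h => h5 (h4.1 h)
        rw [if_neg h8, if_neg h7, mul_zero]
    rw [Finset.sum_congr rfl hval, ← Finset.mul_sum,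
      ← csel_inner hp hζ D c (fun _ => (1 : Kˣ)) Finset.univ Y f hf h1.1]
    have h3 : ∏ i, ∏ v ∈ f i, ∑ a ∈ (Finset.univ : Finset c.J).filter (fun a => a.1 = i),
          ep p (dt a.2.1 (fun k => D.LL v (akR D.toRD0 c (fun _ => 1) f k))) =
        ((wtR c f (fun v k => D.LL v (akR D.toRD0 c (fun _ => 1) f k)) : ℝ) : ℂ) := by
      rw [csel_wt hp]
      refine Finset.prod_congr rfl fun i _ => Finset.prod_congr rfl fun v _ => ?_
      exact csel_fib c i (fun a => ep p (dt a.2.1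
        (fun k => D.LL v (akR D.toRD0 c (fun _ => 1) f k))))
    rw [h3]
    by_cases h4 : SpR c (fun _ => (1 : Kˣ)) f ∧ Smo T (f j)
    · rw [if_pos h4, if_pos ⟨h1.1, h1.2, h4.1, h4.2⟩, one_mul]
    · rw [if_neg h4, if_neg (fun h => h4 ⟨h.2.2.1, h.2.2.2⟩), zero_mul, Complex.ofReal_zero]
  · rw [if_neg h1, if_neg (fun h => h1 ⟨h.1, h.2.1⟩), Complex.ofReal_zero]

/-- the block sum -/
theorem bls_inner {K : Type} [Field K] [NumberField K] {p : ℕ} {ζ : K} {m N : ℕ} [NeZero p]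
    (D : RD K p ζ) (c : CR p m N) (j : Fin N) (T Y z₂ : ℝ) (hz₂ : 1 ≤ z₂)
    (Lg : Finset c.J) (s : c.J → Finset (Pl K)) :
    (∑ g ∈ Fintype.piFinset (fun a => if a ∈ Lg then GF D.toRD0 Y else {s a}),
      if (∀ a ∈ Lg, z₂ < nr (g a)) ∧ ∏ a, nr (g a) ≤ Y then
        (if Dj g then blsP D c j T g else 0) else 0) =
      (if SpA c (fun _ => (1 : Kˣ)) (Lg ∪ Finset.univ.filter fun l => l ∉ Lg ∧ s l ≠ ∅)
        then 1 else 0) *
        TT3 D.toRD0 c.pd (fun _ => 1) ∅ (fun _ => 0) (fun _ : c.J => (0 : Fin 1)) (fun _ => Y) Y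
          Lg z₂ s (blsK c j T) (fun _ => 1) := by
  have hsup : ∀ g ∈ Fintype.piFinset (fun a => if a ∈ Lg then GF D.toRD0 Y else {s a}),
      (∀ a ∈ Lg, z₂ < nr (g a)) →
      sup g = Lg ∪ Finset.univ.filter fun l => l ∉ Lg ∧ s l ≠ ∅ := by
    intro g hg hL
    have hg' : ∀ a, a ∉ Lg → g a = s a := by
      intro a ha
      have := (Fintype.mem_piFinset.1 hg) a
      rw [if_neg ha, Finset.mem_singleton] at this
      exact this
    ext a
    unfold sup
    rw [Finset.mem_filter, Finset.mem_union, Finset.mem_filter]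
    constructor
    · rintro ⟨-, h1⟩
      by_cases ha : a ∈ Lg
      · exact Or.inl ha
      · refine Or.inr ⟨Finset.mem_univ _, ha, ?_⟩
        rw [← hg' a ha]
        exact h1
    · intro h1
      refine ⟨Finset.mem_univ _, ?_⟩
      rcases h1 with h3 | h3
      · intro h4
        have h5 := hL a h3
        rw [h4, aup_nr_empty] at h5
        linarith
      · rw [hg' a h3.2.1]
        exact h3.2.2
  have hprod : ∀ g : c.J → Finset (Pl K),
      (∀ i : Fin 1, ∏ a ∈ Finset.univ.filter (fun _ : c.J => (0 : Fin 1) = i), nr (g a) ≤ Y) ↔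
        ∏ a, nr (g a) ≤ Y := by
    intro g
    constructor
    · intro h
      have := h 0
      rwa [Finset.filter_true_of_mem (fun _ _ => rfl)] at this
    · intro h i
      rw [Finset.filter_true_of_mem (fun _ _ => Subsingleton.elim _ _)]
      exact h
  unfold TT3
  rw [Finset.mul_sum]
  refine Finset.sum_congr rfl fun g hg => ?_
  by_cases hL : ∀ a ∈ Lg, z₂ < nr (g a)
  · by_cases h1 : Dj g ∧ ∏ a, nr (g a) ≤ Y
    · have h2 : Cond2 ∅ (fun _ : c.J => (0 : Fin 1)) (fun _ => Y) Lg z₂ g :=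
        ⟨⟨h1.1, hL, (hprod g).2 h1.2⟩, fun a => Finset.disjoint_empty_right _⟩
      rw [if_pos (show (∀ a ∈ Lg, z₂ < nr (g a)) ∧ ∏ a, nr (g a) ≤ Y from ⟨hL, h1.2⟩),
        if_pos h1.1, if_pos h2, cblk_ph2]
      unfold blsP
      rw [hsup g hg hL]
      ring
    · have h2 : ¬ Cond2 ∅ (fun _ : c.J => (0 : Fin 1)) (fun _ => Y) Lg z₂ g := by
        intro h
        exact h1 ⟨h.1.1, (hprod g).1 h.1.2.2⟩
      rw [if_neg h2, mul_zero]
      by_cases h3 : (∀ a ∈ Lg, z₂ < nr (g a)) ∧ ∏ a, nr (g a) ≤ Y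
      · rw [if_pos h3, if_neg (fun h => h1 ⟨h, h3.2⟩)]
      · rw [if_neg h3]
  · have h2 : ¬ Cond2 ∅ (fun _ : c.J => (0 : Fin 1)) (fun _ => Y) Lg z₂ g :=
      fun h => hL h.1.2.1
    rw [if_neg h2, mul_zero, if_neg (fun h => hL h.1)]

/-- the spanning condition bounds the number of the unlinked classes -/
theorem bls_card {K : Type} [Field K] {p m N : ℕ} [NeZero p] (c : CR p m N) (j : Fin N)
    (Lg S : Finset c.J) (hSp : SpA (K := K) c (fun _ => (1 : Kˣ)) S)
    (hun : ∀ a ∈ Lg, a.1 ≠ j → ∀ l ∈ S, c.pd.lk a l = 0) :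
    (Lg \ Finset.univ.filter fun a => a.1 = j).card ≤ N - 1 := by
  have hmem : ∀ a, a ∈ Lg \ (Finset.univ.filter fun a : c.J => a.1 = j) ↔ a ∈ Lg ∧ a.1 ≠ j := by
    intro a
    rw [Finset.mem_sdiff, Finset.mem_filter]
    simp
  have hinj : Set.InjOn (fun a : c.J => a.1)
      ((Lg \ Finset.univ.filter fun a : c.J => a.1 = j : Finset c.J) : Set c.J) := by
    intro a ha a' ha' haa
    rw [Finset.mem_coe, hmem] at ha ha'
    have haa' : a.1 = a'.1 := haa
    by_contra hne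
    have hx := cblk_x c haa'
    have hδ : c.pd.θ a - c.pd.θ a' ≠ 0 := by
      intro h
      have h1 : a.2.1 = a'.2.1 := sub_eq_zero.1 h
      apply hne
      obtain ⟨i, θ⟩ := a
      obtain ⟨i', θ'⟩ := a'
      have h2 : i = i' := haa'
      subst h2
      have h3 : θ = θ' := Subtype.ext h1
      rw [h3]
    rcases hSp _ hδ with h | h
    · obtain ⟨l, hl, hl2⟩ := h
      exact hl2 (cblk_lk c hx (hun a ha.1 ha.2 l hl) (hun a' ha'.1 ha'.2 l hl))
    · apply h
      refine ⟨1, ?_⟩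
      unfold bp
      rw [one_pow]
      refine (Finset.prod_eq_one fun k _ => ?_).symm
      rw [one_pow]
  have h1 : (Lg \ Finset.univ.filter fun a : c.J => a.1 = j).card ≤
      ((Finset.univ : Finset (Fin N)).erase j).card := by
    refine Finset.card_le_card_of_injOn (fun a : c.J => a.1) ?_ hinj
    intro a ha
    rw [Finset.mem_coe, hmem] at ha
    rw [Finset.mem_coe, Finset.mem_erase]
    exact ⟨ha.2, Finset.mem_univ _⟩
  rwa [Finset.card_erase_of_mem (Finset.mem_univ _), Finset.card_univ, Fintype.card_fin] at h1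

theorem bls {K : Type} [Field K] [NumberField K] {p : ℕ} {ζ : K} {m N : ℕ} [NeZero p]
    (hp : p.Prime) (hp2 : MOne p K) (hζ : IsPrimitiveRoot ζ p) (D : RD K p ζ) (c : CR p m N)
    (hN : 1 ≤ N) : ∃ (C X₀ : ℝ) (A : ℕ), 0 < C ∧ 3 ≤ X₀ ∧ ∀ Y : ℝ, X₀ ≤ Y → ∀ T : ℝ, 3 ≤ T →
      Real.log T ^ 2 ≤ Real.log Y → ∀ j : Fin N,
      (∑ f ∈ Fintype.piFinset (fun _ : Fin N => GF D.toRD0 Y),
        if Dj f ∧ ∏ i, nr (f i) ≤ Y ∧ SpR c (fun _ => (1 : Kˣ)) f ∧ Smo T (f j) then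
          wtR c f (fun v k => D.LL v (akR D.toRD0 c (fun _ => 1) f k)) else 0) ≤
        C * Y * Real.log Y ^ (N - 1) * Real.log Y ^ (-(1 / 2) : ℝ) * Real.log T ^ A := by
  classical
  obtain ⟨Ba, Xa, hXa, hka⟩ := kpa3 hp hζ D c.pd (fun _ : c.J => (0 : Fin 1)) 1
  obtain ⟨Bb, Xb, hXb, hkb⟩ := kpb3 hp hζ D c.pd (fun _ : c.J => (0 : Fin 1)) 1
  obtain ⟨B, hB⟩ : ∃ B : ℕ, B = max Ba Bb := ⟨_, rfl⟩
  have hBa : Ba ≤ B := by rw [hB]; exact le_max_left _ _
  have hBb : Bb ≤ B := by rw [hB]; exact le_max_right _ _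
  obtain ⟨C₁, X₁, B₂, hC₁, hX₁, hab⟩ := ablk3 (J := c.J) D.toRD0 B 0
  obtain ⟨C₂, X₂, A, hC₂, hX₂, hsm⟩ := smo_cnt (J := c.J) D.toRD0 N hN B₂
  obtain ⟨X₀, hX₀⟩ : ∃ X₀ : ℝ, X₀ = max X₁ (max X₂ (max Xa Xb)) := ⟨_, rfl⟩
  have hX₀1 : X₁ ≤ X₀ := by rw [hX₀]; exact le_max_left _ _
  have hX₀2 : X₂ ≤ X₀ := by rw [hX₀]; exact (le_max_left _ _).trans (le_max_right _ _)
  have hX₀a : Xa ≤ X₀ := by
    rw [hX₀]
    exact ((le_max_left _ _).trans (le_max_right _ _)).trans (le_max_right _ _)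
  have hX₀b : Xb ≤ X₀ := by
    rw [hX₀]
    exact ((le_max_right _ _).trans (le_max_right _ _)).trans (le_max_right _ _)
  obtain ⟨C₃, hC₃⟩ : ∃ C₃ : ℝ, C₃ = max C₂ 1 := ⟨_, rfl⟩
  have hC₃2 : C₂ ≤ C₃ := by rw [hC₃]; exact le_max_left _ _
  have hC₃1 : 1 ≤ C₃ := by rw [hC₃]; exact le_max_right _ _
  refine ⟨C₁ * (C₃ * 2 ^ (N - 1) + 1), X₀, A, by positivity, hX₁.trans hX₀1,
    fun Y hY T hT hTY j => ?_⟩
  have hY3 : 3 ≤ Y := (hX₁.trans hX₀1).trans hY
  have hY0 : 0 < Y := by linarith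
  have hlog : 1 ≤ Real.log Y := by
    rw [Real.le_log_iff_exp_le (by linarith)]
    linarith [Real.exp_one_lt_d9]
  have hlogT : 1 ≤ Real.log T := by
    rw [Real.le_log_iff_exp_le (by linarith)]
    linarith [Real.exp_one_lt_d9]
  have hTA : 1 ≤ Real.log T ^ A := one_le_pow₀ hlogT
  have hpw : ∀ (x z₂ : ℝ) (B' : ℕ), 1 ≤ x → B' ≤ B → x ^ B ≤ z₂ → x ^ B' ≤ z₂ :=
    fun x z₂ B' hx hB' h => (pow_le_pow_right₀ hx hB').trans h
  have hYi : ∀ _i : Fin 1, 0 < Y ∧ Y ≤ Y := fun _ => ⟨by linarith, le_rfl⟩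
  obtain ⟨M, hM⟩ : ∃ M : ℝ, M = C₃ * Y * (1 + Real.log Y) ^ (N - 1) / Real.log Y *
      Real.log T ^ A := ⟨_, rfl⟩
  have hM0 : 0 ≤ M := by rw [hM]; positivity
  have hpow1 : 1 ≤ (1 + Real.log Y) ^ (N - 1) := one_le_pow₀ (by linarith)
  have hMY : Y * (Real.log Y)⁻¹ ≤ M := by
    rw [hM]
    have h1 : Y * (Real.log Y)⁻¹ = 1 * Y * 1 / Real.log Y * 1 := by
      rw [one_mul, mul_one, mul_one, div_eq_mul_inv]
    rw [h1]
    gcongr
  set κ : c.J → Finset (Pl K) → ℂ := blsK c j T with hκ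
  have key := hab Y (hX₀1.trans hY) (fun g => if Dj g then blsP D c j T g else 0) (by
    intro g
    show ‖(if Dj g then blsP D c j T g else 0 : ℂ)‖ ≤ 1
    split_ifs
    · exact blsP_norm D c j T g
    · rw [norm_zero]; exact zero_le_one) M hM0 (by
    intro z₁ z₂ hz₁ hz₂ hlz _ hz₁u Lg s hs1 hs2
    have hz₂1 : 1 ≤ z₂ := (one_le_pow₀ hz₁).trans hz₂
    have hsn : 0 < sn Lg s := by
      unfold sn
      exact Finset.prod_pos fun l _ => akb_nr_pos _
    have hMsn : Y / sn Lg s * (Real.log Y)⁻¹ ≤ M / sn Lg s + 1 := by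
      have h1 : Y / sn Lg s * (Real.log Y)⁻¹ = Y * (Real.log Y)⁻¹ / sn Lg s := by ring
      rw [h1]
      have h2 : Y * (Real.log Y)⁻¹ / sn Lg s ≤ M / sn Lg s :=
        div_le_div_of_nonneg_right hMY hsn.le
      linarith
    obtain ⟨S, hS⟩ : ∃ S : Finset c.J,
      S = Lg ∪ Finset.univ.filter fun l => l ∉ Lg ∧ s l ≠ ∅ := ⟨_, rfl⟩
    have hin := bls_inner D c j T Y z₂ hz₂1 Lg s
    rw [← hS] at hin
    have hb : BS2 (m := m) D.toRD0 (fun _ => 1) ∅ :=
      ⟨fun v hv => absurd hv (Finset.notMem_empty v), fun k v _ _ => ord_one v⟩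
    have hE : nr (∅ : Finset (Pl K)) ≤ z₁ := by rw [aup_nr_empty]; exact hz₁
    by_cases hSp : SpA c (fun _ => (1 : Kˣ)) S
    swap
    · rw [hin, if_neg hSp, zero_mul, norm_zero]
      positivity
    by_cases h1 : ∃ a ∈ Lg, ∃ a' ∈ Lg, c.pd.lk a a' ≠ 0
    · have := hka Y z₁ z₂ (hX₀a.trans hY) hz₁ (hpw _ _ _ hz₁ hBa hz₂)
        (hpw _ _ _ hlog hBa hlz) (fun _ => Y) hYi (fun _ => 1) ∅ (fun _ => 0) hb hE Lg s hs2
        (blsK c j T) (blsK_norm c j T) (fun _ => 1) (fun _ => by rw [norm_one]) h1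
      rw [Fin.prod_univ_one, Real.rpow_neg_one] at this
      rw [hin, if_pos hSp, one_mul]
      exact this.trans hMsn
    have h1' : ∀ a ∈ Lg, ∀ a' ∈ Lg, c.pd.lk a a' = 0 := by
      intro a ha a' ha'
      by_contra h
      exact h1 ⟨a, ha, a', ha', h⟩
    by_cases h2 : ∃ a ∈ Lg, a.1 ≠ j ∧ ∃ l, l ∉ Lg ∧ s l ≠ ∅ ∧ c.pd.lk a l ≠ 0
    · obtain ⟨a, ha, haj, l, hl1, hl2, hl3⟩ := h2
      have := hkb Y z₁ z₂ (hX₀b.trans hY) hz₁ (hpw _ _ _ hz₁ hBb hz₂)
        (hpw _ _ _ hlog hBb hlz) (fun _ => Y) hYi (fun _ => 1) ∅ (fun _ => 0) hb hE Lg s hs2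
        (blsK c j T) (blsK_norm c j T) (fun _ => 1) (fun _ => by rw [norm_one]) h1'
        (Or.inl ⟨a, ha, fun n => by unfold blsK; rw [if_neg haj], l, hl1, hl2, hl3⟩)
      rw [Fin.prod_univ_one, Real.rpow_neg_one] at this
      rw [hin, if_pos hSp, one_mul]
      exact this.trans hMsn
    have hun : ∀ a ∈ Lg, a.1 ≠ j → ∀ l ∈ S, c.pd.lk a l = 0 := by
      intro a ha haj l hl
      rw [hS, Finset.mem_union, Finset.mem_filter] at hl
      rcases hl with hl | hl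
      · exact h1' a ha l hl
      · by_contra h
        exact h2 ⟨a, ha, haj, l, hl.2.1, hl.2.2, h⟩
    have hcard := bls_card (K := K) c j Lg S hSp hun
    have h3 := hsm Y (hX₀2.trans hY) T hT hTY z₁ hz₁ hz₁u
      (Finset.univ.filter fun a => a.1 = j) Lg s hs1 hs2 hcard
    refine le_trans ?_ (h3.trans ?_)
    · rw [Finset.card_filter, Nat.cast_sum]
      refine (norm_sum_le _ _).trans (Finset.sum_le_sum fun g _ => ?_)
      by_cases h4 : (∀ a ∈ (Finset.univ.filter fun a : c.J => a.1 = j), Smo T (g a)) ∧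
          ∏ a, nr (g a) ≤ Y
      · rw [if_pos h4, Nat.cast_one]
        split_ifs
        · exact blsP_norm D c j T g
        · rw [norm_zero]; exact zero_le_one
        · rw [norm_zero]; exact zero_le_one
      · rw [if_neg h4, Nat.cast_zero]
        have h5 : (if (∀ a ∈ Lg, z₂ < nr (g a)) ∧ ∏ a, nr (g a) ≤ Y then
            (if Dj g then blsP D c j T g else 0) else 0 : ℂ) = 0 := by
          by_cases h6 : ∏ a, nr (g a) ≤ Y
          · have h7 : ¬ ∀ a ∈ (Finset.univ.filter fun a : c.J => a.1 = j), Smo T (g a) :=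
              fun h => h4 ⟨h, h6⟩
            push Not at h7
            obtain ⟨a, ha, hsa⟩ := h7
            rw [Finset.mem_filter] at ha
            have h8 : blsP D c j T g = 0 := by
              unfold blsP
              have h9 : ∏ a, blsK c j T a (g a) = 0 := by
                refine Finset.prod_eq_zero (Finset.mem_univ a) ?_
                unfold blsK
                rw [if_pos ha.2, if_neg hsa]
              rw [h9, zero_mul, zero_mul]
            rw [h8]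
            split_ifs <;> rfl
          · rw [if_neg (fun h => h6 h.2)]
        rw [h5, norm_zero]
    · have h4 : C₂ * Y / sn Lg s * (1 + Real.log Y) ^ (N - 1) / Real.log Y * Real.log T ^ A ≤
          M / sn Lg s := by
        have h5 : M / sn Lg s =
            C₃ * Y / sn Lg s * (1 + Real.log Y) ^ (N - 1) / Real.log Y * Real.log T ^ A := by
          rw [hM]; ring
        rw [h5]
        gcongr
      linarith)
  have h1 := bls_ex hp hζ D c j Y T
  have h2 : (∑ f ∈ Fintype.piFinset (fun _ : Fin N => GF D.toRD0 Y),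
        if Dj f ∧ ∏ i, nr (f i) ≤ Y ∧ SpR c (fun _ => (1 : Kˣ)) f ∧ Smo T (f j) then
          wtR c f (fun v k => D.LL v (akR D.toRD0 c (fun _ => 1) f k)) else 0) ≤
      C₁ * (M * Real.log Y ^ (1 / 2 : ℝ) + Y ^ (1 / 2 : ℝ)) := by
    refine le_trans (le_abs_self _) ?_
    rw [← Real.norm_eq_abs, ← Complex.norm_real, h1]
    exact key
  refine h2.trans ?_
  have hl0 : 0 < Real.log Y := by linarith
  have hhalf : Real.log Y ^ (1 / 2 : ℝ) = Real.log Y * Real.log Y ^ (-(1 / 2) : ℝ) := by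
    nth_rewrite 2 [← Real.rpow_one (Real.log Y)]
    rw [← Real.rpow_add hl0]
    norm_num
  have hYh : Y ^ (1 / 2 : ℝ) ≤ Y * Real.log Y ^ (-(1 / 2) : ℝ) := by
    have h3 : Y ^ (1 / 2 : ℝ) = Y * Y ^ (-(1 / 2) : ℝ) := by
      nth_rewrite 2 [← Real.rpow_one Y]
      rw [← Real.rpow_add hY0]
      norm_num
    rw [h3]
    refine mul_le_mul_of_nonneg_left ?_ hY0.le
    refine Real.rpow_le_rpow_of_nonpos hl0 ?_ (by norm_num)
    exact (Real.log_le_sub_one_of_pos hY0).trans (by linarith)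
  have hl1 : (1 + Real.log Y) ^ (N - 1) ≤ 2 ^ (N - 1) * Real.log Y ^ (N - 1) := by
    rw [← mul_pow]
    exact pow_le_pow_left₀ (by linarith) (by linarith) _
  have hln : 1 ≤ Real.log Y ^ (N - 1) := one_le_pow₀ hlog
  have hr0 : 0 < Real.log Y ^ (-(1 / 2) : ℝ) := Real.rpow_pos_of_pos hl0 _
  have hA1 : M * Real.log Y ^ (1 / 2 : ℝ) ≤
      C₃ * 2 ^ (N - 1) * (Y * Real.log Y ^ (N - 1) * Real.log Y ^ (-(1 / 2) : ℝ) *
        Real.log T ^ A) := by
    have h3 : M * Real.log Y ^ (1 / 2 : ℝ) = (1 + Real.log Y) ^ (N - 1) *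
        (C₃ * Y * Real.log Y ^ (-(1 / 2) : ℝ) * Real.log T ^ A) := by
      rw [hM, hhalf]
      field_simp
    rw [h3]
    refine (mul_le_mul_of_nonneg_right hl1 (by positivity)).trans (le_of_eq (by ring))
  have hA2 : Y ^ (1 / 2 : ℝ) ≤
      1 * (Y * Real.log Y ^ (N - 1) * Real.log Y ^ (-(1 / 2) : ℝ) * Real.log T ^ A) := by
    rw [one_mul]
    refine hYh.trans ?_
    have h3 : Y * Real.log Y ^ (-(1 / 2) : ℝ) =
        Y * 1 * Real.log Y ^ (-(1 / 2) : ℝ) * 1 := by ring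
    rw [h3]
    gcongr
  have h5 := add_le_add hA1 hA2
  rw [← add_mul] at h5
  refine (mul_le_mul_of_nonneg_left h5 hC₁.le).trans (le_of_eq (by ring))

end H57.LS
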