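import Pool.Agent.H38.BB.CBlk
import Pool.Agent.H38.BB.CExp
import Pool.Agent.H38.BB.CPsi
import Pool.Agent.H57.PC.Def2

/-!
# H57-LS-DEF: weighted sums over the large variables

`TT3`: as `TT2` (H63/MB/BDef) with additional weights `κ a (g a)`, arbitrary complex numbers of absolute value at most `1`.
`Smo T n`: all primes of `n` have norm at most `T`.
-/

set_option autoImplicit false

open scoped NumberField
open IsDedekindDomain
open scoped Classical

noncomputable section

namespace H57.LS

open H63.MA H38.BB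

variable {K : Type} [Field K] [NumberField K] {p : ℕ} {ζ : K} {m : ℕ} {J : Type} [Fintype J]

/-- the weighted sum over the large variables -/
def TT3 {t : ℕ} (D : RD0 K p ζ) (P : PD p m J) (b : Fin m → Kˣ) (E : Finset (Pl K))
    (η : Pl K → Fin m → ZMod p) (blk : J → Fin t) (Y : Fin t → ℝ) (X : ℝ) (Lg : Finset J) (z : ℝ)
    (s : J → Finset (Pl K)) (κ : J → Finset (Pl K) → ℂ) (h : (J → Fin D.r → ZMod p) → ℂ) : ℂ :=
  ∑ g ∈ Fintype.piFinset (fun a => if a ∈ Lg then GF D X else {s a}),
    if Cond2 E blk Y Lg z g then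
      (∏ a, κ a (g a)) * (h (fun a => qf D (g a)) * ep p (ph2 D P b E η g)) else 0

/-- all primes have norm at most `T` -/
def Smo (T : ℝ) (n : Finset (Pl K)) : Prop := ∀ v ∈ n, (nm v : ℝ) ≤ T

end H57.LS
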